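import Pool.Agent.Lib.MP_2f3286_ag.Gen.Val

/-!
# Finiteness of the set of points with given norms, and absence of curves with monomial norms
-/

open Polynomial

namespace Pool.Agent.Lib.MP_2f3286_ag.Gen

variable {E L : Type*} [Field E] [Field L] [Algebra E L] {I J : Type*} [Fintype I] [Fintype J]

/-- if all the products are integral at `V` then so are all the coordinates -/
theorem mem_of_prod_mem (V : ValuationSubring L) (hV : ∀ c : E, algebraMap E L c ∈ V) (P : J → I → E[X])
    (hdeg : ∀ j i, 0 < (P j i).natDegree)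
    (hcop : ∀ i, Pairwise fun j j' => IsCoprime (P j i) (P j' i))
    (hcard : Fintype.card I ≤ Fintype.card J) (x : I → L)
    (hx : ∀ j, ∏ i, aeval (x i) (P j i) ∈ V) (i : I) : x i ∈ V := by
  classical
  by_contra hi
  have h1 := card_used_le V hV P hcop x
  have h2 : (Finset.univ.filter fun j => ∃ i, x i ∈ V ∧ V.valuation (aeval (x i) (P j i)) < 1) =
      (Finset.univ : Finset J) := by
    apply Finset.filter_true_of_mem
    intro j _
    by_contra hj
    push Not at hj
    have h3 := (one_le_prod V hV (P j) (hdeg j) x hj).2 ⟨i, hi⟩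
    have h4 := (V.valuation_le_one_iff _).mpr (hx j)
    exact absurd h3 (not_lt.mpr h4)
  have h3 : (Finset.univ.filter fun i => x i ∈ V).card < (Finset.univ : Finset I).card := by
    refine Finset.card_lt_card (Finset.filter_ssubset.mpr ⟨i, Finset.mem_univ i, hi⟩)
  have h4 : Fintype.card J ≤ (Finset.univ.filter fun i => x i ∈ V).card := by
    rw [← Finset.card_univ, ← h2]
    convert h1
  rw [Finset.card_univ] at h3
  omega

/-- points with constant norms are algebraic -/
theorem isIntegral_of_norms (P : J → I → E[X]) (hdeg : ∀ j i, 0 < (P j i).natDegree)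
    (hcop : ∀ i, Pairwise fun j j' => IsCoprime (P j i) (P j' i))
    (hcard : Fintype.card I ≤ Fintype.card J) (ρ : J → E) (x : I → L)
    (hx : ∀ j, ∏ i, aeval (x i) (P j i) = algebraMap E L (ρ j)) (i : I) : IsIntegral E (x i) := by
  by_contra hi
  obtain ⟨V, hV, hiV⟩ := exists_val_not_mem E hi
  exact hiV (mem_of_prod_mem V hV P hdeg hcop hcard x (fun j => by rw [hx j]; exact hV _) i)

/-- there is one polynomial vanishing at all coordinates of all points with given norms -/
theorem exists_poly_of_norms (P : J → I → E[X]) (hdeg : ∀ j i, 0 < (P j i).natDegree)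
    (hcop : ∀ i, Pairwise fun j j' => IsCoprime (P j i) (P j' i))
    (hcard : Fintype.card I ≤ Fintype.card J) (ρ : J → E) :
    ∃ χ : E[X], χ ≠ 0 ∧ ∀ (L : Type _) [Field L] [Algebra E L] (x : I → L),
      (∀ j, ∏ i, aeval (x i) (P j i) = algebraMap E L (ρ j)) → ∀ i, aeval (x i) χ = 0 := by
  classical
  -- the ideal of the equations
  let f : J → MvPolynomial I E := fun j =>
    ∏ i, aeval (MvPolynomial.X i : MvPolynomial I E) (P j i) - MvPolynomial.C (ρ j)
  let 𝔞 : Ideal (MvPolynomial I E) := Ideal.span (Set.range f)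
  have key : ∀ i, ∃ χ : E[X], χ ≠ 0 ∧ aeval (MvPolynomial.X i : MvPolynomial I E) χ ∈ 𝔞 := by
    intro i
    by_contra hcon
    push Not at hcon
    let S : Submonoid (MvPolynomial I E) :=
      (nonZeroDivisors E[X]).map (aeval (MvPolynomial.X i : MvPolynomial I E) :
        E[X] →ₐ[E] MvPolynomial I E)
    have hdisj : Disjoint (𝔞 : Set (MvPolynomial I E)) S := by
      rw [Set.disjoint_left]
      rintro a ha ⟨χ, hχ, rfl⟩
      exact hcon χ (nonZeroDivisors.ne_zero hχ) ha
    obtain ⟨𝔭, h𝔭, h𝔞, hd⟩ := Ideal.exists_le_prime_disjoint 𝔞 S hdisj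
    let A := MvPolynomial I E ⧸ 𝔭
    let L := FractionRing A
    let x : I → L := fun i => algebraMap A L (Ideal.Quotient.mk 𝔭 (MvPolynomial.X i))
    let π : MvPolynomial I E →ₐ[E] L := (IsScalarTower.toAlgHom E A L).comp (Ideal.Quotient.mkₐ E 𝔭)
    have hπx : ∀ i, π (MvPolynomial.X i) = x i := fun i => rfl
    have hx : ∀ j, ∏ i, aeval (x i) (P j i) = algebraMap E L (ρ j) := by
      intro j
      have h1 : π (f j) = 0 := by
        have h2 : f j ∈ 𝔭 := h𝔞 (Ideal.subset_span ⟨j, rfl⟩)
        change algebraMap A L (Ideal.Quotient.mk 𝔭 (f j)) = 0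
        rw [Ideal.Quotient.eq_zero_iff_mem.mpr h2, map_zero]
      have h3 : π (f j) = ∏ i, aeval (x i) (P j i) - algebraMap E L (ρ j) := by
        simp only [f]
        rw [map_sub, map_prod]
        congr 1
        refine Finset.prod_congr rfl fun i _ => ?_
        rw [← hπx i, aeval_algHom_apply]
      rw [h3, sub_eq_zero] at h1
      exact h1
    obtain ⟨χ, hχ, hχx⟩ := isIntegral_of_norms P hdeg hcop hcard ρ x hx i
    have h4 : π (aeval (MvPolynomial.X i : MvPolynomial I E) χ) = 0 := by
      rw [← aeval_algHom_apply, hπx]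
      exact hχx
    have h5 : Ideal.Quotient.mk 𝔭 (aeval (MvPolynomial.X i : MvPolynomial I E) χ) = 0 :=
      (IsFractionRing.injective A L) (by rw [map_zero]; exact h4)
    rw [Ideal.Quotient.eq_zero_iff_mem] at h5
    exact (Set.disjoint_left.mp hd) h5 ⟨χ, mem_nonZeroDivisors_of_ne_zero hχ.ne_zero, rfl⟩
  choose χ hχ0 hχ using key
  refine ⟨∏ i, χ i, Finset.prod_ne_zero_iff.mpr fun i _ => hχ0 i, fun L _ _ x hx i => ?_⟩
  rw [map_prod]
  refine Finset.prod_eq_zero (Finset.mem_univ i) ?_
  have h1 : MvPolynomial.aeval x (aeval (MvPolynomial.X i : MvPolynomial I E) (χ i)) = 0 := by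
    have h2 : 𝔞 ≤ RingHom.ker (MvPolynomial.aeval (R := E) x) := by
      rw [Ideal.span_le]
      rintro _ ⟨j, rfl⟩
      change MvPolynomial.aeval x (f j) = 0
      simp only [f]
      rw [map_sub, map_prod, MvPolynomial.aeval_C, ← hx j, sub_eq_zero]
      refine Finset.prod_congr rfl fun i _ => ?_
      rw [← aeval_algHom_apply, MvPolynomial.aeval_X]
    exact h2 (hχ i)
  rwa [← aeval_algHom_apply, MvPolynomial.aeval_X] at h1

/-- there is no curve on which the norms are constants times powers of one parameter, if there are at least twice as many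
norms as coordinates -/
theorem no_curve_aux (P : J → I → E[X]) (hdeg : ∀ j i, 0 < (P j i).natDegree)
    (hcop : ∀ i, Pairwise fun j j' => IsCoprime (P j i) (P j' i))
    (hcard : 2 * Fintype.card I ≤ Fintype.card J) {z : L} (hz : Transcendental E z) (c : J → E)
    (hc : ∀ j, c j ≠ 0) (n : J → ℤ) (x : I → L)
    (hx : ∀ j, ∏ i, aeval (x i) (P j i) = algebraMap E L (c j) * z ^ n j) (j : J) : n j = 0 := by
  classical
  have hz0 : z ≠ 0 := by
    rintro rfl
    exact hz isAlgebraic_zero
  have hint : ∀ y : L, IsIntegral E y → y ≠ z := by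
    rintro y hy rfl
    exact hz hy.isAlgebraic
  obtain ⟨V₁, hV₁, hz₁⟩ := exists_val_not_mem E (x := z) (fun h => hint z h rfl)
  obtain ⟨V₂, hV₂, hz₂⟩ := exists_val_not_mem E (x := z⁻¹) (fun h => by
    have h1 : IsAlgebraic E z := by
      have h2 := (h.isAlgebraic).inv
      rwa [inv_inv] at h2
    exact hz h1)
  have h1 : 1 < V₁.valuation z := by rw [← not_le, V₁.valuation_le_one_iff]; exact hz₁
  have h2 : V₂.valuation z < 1 := by
    have h3 : 1 < V₂.valuation z⁻¹ := by rw [← not_le, V₂.valuation_le_one_iff]; exact hz₂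
    rw [map_inv₀] at h3
    exact (one_lt_inv₀ (zero_lt_iff.mpr ((Valuation.ne_zero_iff _).mpr hz0))).mp h3
  have hv : ∀ (V : ValuationSubring L), (∀ c : E, algebraMap E L c ∈ V) → ∀ j,
      V.valuation (∏ i, aeval (x i) (P j i)) = V.valuation z ^ n j := by
    intro V hV j
    rw [hx j, map_mul, val_const V hV (hc j), one_mul, map_zpow₀]
  -- sign of the exponent from the valuations
  have pos₁ : ∀ m : ℤ, 1 ≤ V₁.valuation z ^ m → 0 ≤ m := by
    intro m hm
    by_contra hneg
    push Not at hneg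
    exact absurd hm (not_le.mpr (zpow_lt_one_of_neg₀ h1 hneg))
  have pos₁' : ∀ m : ℤ, 1 < V₁.valuation z ^ m → 0 < m := by
    intro m hm
    rcases (pos₁ m hm.le).lt_or_eq with h | h
    · exact h
    · rw [← h, zpow_zero] at hm; exact absurd hm (lt_irrefl _)
  have h2' : 1 < (V₂.valuation z)⁻¹ :=
    (one_lt_inv₀ (zero_lt_iff.mpr ((Valuation.ne_zero_iff _).mpr hz0))).mpr h2
  have pos₂ : ∀ m : ℤ, 1 ≤ V₂.valuation z ^ m → m ≤ 0 := by
    intro m hm
    by_contra hneg
    push Not at hneg
    have h3 : (V₂.valuation z)⁻¹ ^ (-m) < 1 := zpow_lt_one_of_neg₀ h2' (by omega)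
    rw [inv_zpow, zpow_neg, inv_inv] at h3
    exact absurd hm (not_le.mpr h3)
  have pos₂' : ∀ m : ℤ, 1 < V₂.valuation z ^ m → m < 0 := by
    intro m hm
    rcases (pos₂ m hm.le).lt_or_eq with h | h
    · exact h
    · rw [h, zpow_zero] at hm; exact absurd hm (lt_irrefl _)
  -- all coordinates are integral at both places
  have hall : (∀ i, x i ∈ V₁) ∧ ∀ i, x i ∈ V₂ := by
    have c₁ := card_used_le V₁ hV₁ P hcop x
    have c₂ := card_used_le V₂ hV₂ P hcop x
    by_cases hex : ∃ j, (∀ i, x i ∈ V₁ → 1 ≤ V₁.valuation (aeval (x i) (P j i))) ∧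
        ∀ i, x i ∈ V₂ → 1 ≤ V₂.valuation (aeval (x i) (P j i))
    · obtain ⟨j, hj₁, hj₂⟩ := hex
      obtain ⟨a₁, b₁⟩ := one_le_prod V₁ hV₁ (P j) (hdeg j) x hj₁
      obtain ⟨a₂, b₂⟩ := one_le_prod V₂ hV₂ (P j) (hdeg j) x hj₂
      rw [hv V₁ hV₁] at a₁ b₁
      rw [hv V₂ hV₂] at a₂ b₂
      have e₁ := pos₁ _ a₁
      have e₂ := pos₂ _ a₂
      constructor
      · by_contra hcon
        push Not at hcon
        have := pos₁' _ (b₁ hcon)
        omega
      · by_contra hcon
        push Not at hcon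
        have := pos₂' _ (b₂ hcon)
        omega
    · push Not at hex
      have hun : (Finset.univ.filter fun j => ∃ i, x i ∈ V₁ ∧
            V₁.valuation (aeval (x i) (P j i)) < 1) ∪ (Finset.univ.filter fun j => ∃ i, x i ∈ V₂ ∧
            V₂.valuation (aeval (x i) (P j i)) < 1) = (Finset.univ : Finset J) := by
        rw [Finset.eq_univ_iff_forall]
        intro j
        rw [Finset.mem_union, Finset.mem_filter, Finset.mem_filter]
        by_cases hj : ∀ i, x i ∈ V₁ → 1 ≤ V₁.valuation (aeval (x i) (P j i))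
        · obtain ⟨i, hi, hi'⟩ := hex j hj
          exact Or.inr ⟨Finset.mem_univ _, i, hi, hi'⟩
        · push Not at hj
          obtain ⟨i, hi, hi'⟩ := hj
          exact Or.inl ⟨Finset.mem_univ _, i, hi, hi'⟩
      have h3 := Finset.card_union_le (Finset.univ.filter fun j => ∃ i, x i ∈ V₁ ∧
            V₁.valuation (aeval (x i) (P j i)) < 1) (Finset.univ.filter fun j => ∃ i, x i ∈ V₂ ∧
            V₂.valuation (aeval (x i) (P j i)) < 1)
      rw [hun, Finset.card_univ] at h3
      have d₁ : (Finset.univ.filter fun i => x i ∈ V₁).card ≤ Fintype.card I := Finset.card_le_univ _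
      have d₂ : (Finset.univ.filter fun i => x i ∈ V₂).card ≤ Fintype.card I := Finset.card_le_univ _
      have e₁ : (Finset.univ.filter fun i => x i ∈ V₁).card = Fintype.card I := by omega
      have e₂ : (Finset.univ.filter fun i => x i ∈ V₂).card = Fintype.card I := by omega
      rw [Finset.card_eq_iff_eq_univ, Finset.filter_eq_self] at e₁ e₂
      exact ⟨fun i => e₁ i (Finset.mem_univ i), fun i => e₂ i (Finset.mem_univ i)⟩
  have k₁ : V₁.valuation z ^ n j ≤ 1 := by
    rw [← hv V₁ hV₁, V₁.valuation_le_one_iff]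
    exact prod_mem fun i _ => aeval_mem V₁ hV₁ _ (hall.1 i)
  have k₂ : V₂.valuation z ^ n j ≤ 1 := by
    rw [← hv V₂ hV₂, V₂.valuation_le_one_iff]
    exact prod_mem fun i _ => aeval_mem V₂ hV₂ _ (hall.2 i)
  have l₁ : n j ≤ 0 := by
    by_contra hcon
    push Not at hcon
    exact absurd k₁ (not_le.mpr (one_lt_zpow₀ h1 hcon))
  have l₂ : 0 ≤ n j := by
    by_contra hcon
    push Not at hcon
    have h3 : 1 < (V₂.valuation z)⁻¹ ^ (-(n j)) := one_lt_zpow₀ h2' (by omega)
    rw [inv_zpow, zpow_neg, inv_inv] at h3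
    exact absurd k₂ (not_le.mpr h3)
  omega

end Pool.Agent.Lib.MP_2f3286_ag.Gen
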