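import Pool.Agent.Lib.MP_2f3286_ag.Gen.Rel

/-!
# The norms are rational up to powers
-/

open IsDedekindDomain NumberField WithZero Polynomial

namespace Pool.Agent.Lib.MP_2f3286_ag.Gen

/-- a system of classes which comes from one element -/
def IsRat {G : Type*} [Group G] (g : ℕ → G) : Prop := ∃ ρ : G, ∀ n, 1 ≤ n → ∃ z : G, g n = ρ * z ^ n

variable {E : Type*} [Field E] [NumberField E]

theorem exists_rational_pow {I J : Type*} [Fintype I] [Fintype J] (P : J → I → E[X])
    (hdeg : ∀ j i, 0 < (P j i).natDegree)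
    (hcop : ∀ i, Pairwise fun j j' => IsCoprime (P j i) (P j' i))
    (hcard : 2 * Fintype.card I ≤ Fintype.card J)
    (g : J → ℕ → Eˣ) (r : J → Eˣ) (ε : Eˣ)
    (hcompat : ∀ i, ∀ n m, 1 ≤ n → 1 ≤ m → ∃ y : Eˣ, g i (n * m) = g i n * y ^ n)
    (hform : ∀ i, ∀ n, 1 ≤ n → ∃ ζ : Eˣ, IsOfFinOrder ζ ∧ ∃ j : ℤ, ∃ y : Eˣ,
      g i n = r i * (ζ * ε ^ j * y ^ n))
    (T : Finset (HeightOneSpectrum (𝓞 E)))
    (x : ∀ W : HeightOneSpectrum (𝓞 E), I → W.adicCompletion E)
    (hQ : ∀ W ∉ T, ∀ j, ∏ i, aeval (x W i) (P j i) ≠ 0)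
    (hloc : ∀ W ∉ T, ∀ j, ∀ n, 1 ≤ n → ∃ z : W.adicCompletion E,
      algebraMap E (W.adicCompletion E) (g j n) * z ^ n = ∏ i, aeval (x W i) (P j i)) (j : J) :
    ∃ e : ℕ, 0 < e ∧ IsRat fun n => g j n ^ e := by
  classical
  let Ind : Finset J → Prop := fun J' => ∀ l : J → ℤ, (∀ j ∉ J', l j = 0) →
      (∃ ρ : Eˣ, ∀ n, 1 ≤ n → ∃ z : Eˣ, ∏ j, g j n ^ l j = ρ * z ^ n) → l = 0
  have hne : ((Finset.univ : Finset (Finset J)).filter Ind).Nonempty :=
    ⟨∅, Finset.mem_filter.mpr ⟨Finset.mem_univ _, fun l hl _ => funext fun j => hl j (by simp)⟩⟩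
  obtain ⟨J', hJ', hmax⟩ := Finset.exists_max_image _ Finset.card hne
  have hInd : Ind J' := (Finset.mem_filter.mp hJ').2
  -- the relations
  have hrel : ∀ i, i ∉ J' → ∃ (l : J → ℤ) (e : ℕ) (ρ : Eˣ), 0 < e ∧ l i = e ∧
      (∀ j ∉ J', j ≠ i → l j = 0) ∧ ∀ n, 1 ≤ n → ∃ z : Eˣ, ∏ j, g j n ^ l j = ρ * z ^ n := by
    intro i hi
    have h1 : ¬ Ind (insert i J') := by
      intro h
      have h2 := hmax (insert i J') (Finset.mem_filter.mpr ⟨Finset.mem_univ _, h⟩)
      rw [Finset.card_insert_of_notMem hi] at h2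
      omega
    simp only [Ind] at h1
    push Not at h1
    obtain ⟨l, hl, ⟨ρ, hρ⟩, hl0⟩ := h1
    have hli : l i ≠ 0 := by
      intro h0
      apply hl0
      refine hInd l (fun j hj => ?_) ⟨ρ, hρ⟩
      by_cases hji : j = i
      · rw [hji, h0]
      · exact hl j (by simp [hji, hj])
    have hsupp : ∀ j ∉ J', j ≠ i → l j = 0 := fun j hj hji => hl j (by simp [hji, hj])
    rcases lt_or_gt_of_ne hli with hneg | hpos
    · refine ⟨fun j => -l j, (l i).natAbs, ρ⁻¹, Int.natAbs_pos.mpr hli, ?_, fun j hj hji => by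
        beta_reduce; rw [hsupp j hj hji, neg_zero], fun n hn => ?_⟩
      · beta_reduce; omega
      · obtain ⟨z, hz⟩ := hρ n hn
        refine ⟨z⁻¹, ?_⟩
        simp only [zpow_neg]
        rw [Finset.prod_inv_distrib, hz, mul_inv, inv_pow]
    · exact ⟨l, (l i).natAbs, ρ, Int.natAbs_pos.mpr hli, by omega, hsupp, hρ⟩
  have hemp : J' = ∅ := by
    by_contra hne'
    obtain ⟨j₀, hj₀⟩ := Finset.nonempty_iff_ne_empty.mpr hne'
    choose! l e ρ he hle hls hlr using hrel
    let e' : J → ℕ := fun i => if i ∈ J' then 1 else e i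
    let ρ' : J → Eˣ := fun i => if i ∈ J' then 1 else ρ i
    let n : J → J → ℤ := fun i j => if i ∈ J' then (if j = i then 1 else 0) else
      (if j ∈ J' then -l i j else 0)
    have he' : ∀ i, 0 < e' i := by
      intro i
      simp only [e']
      split_ifs with h
      · exact one_pos
      · exact he i h
    have hn : ∀ i, ∀ j ∉ J', n i j = 0 := by
      intro i j hj
      simp only [n]
      split_ifs with h1 h2
      · rw [h2] at hj; exact absurd h1 hj
      · rfl
      · rfl
    -- the powers of the local norms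
    have hM : ∀ W ∉ T, ∀ i, (∏ a, aeval (x W a) (P i a)) ^ e' i =
        algebraMap E (W.adicCompletion E) (ρ' i) * ∏ j, (∏ a, aeval (x W a) (P j a)) ^ n i j := by
      intro W hW i
      by_cases hi : i ∈ J'
      · simp only [e', ρ', n, if_pos hi]
        rw [pow_one, Units.val_one, map_one, one_mul, Finset.prod_eq_single i]
        · rw [if_pos rfl, zpow_one]
        · intro j _ hji
          rw [if_neg hji, zpow_zero]
        · intro h; exact absurd (Finset.mem_univ _) h
      · simp only [e', ρ', n, if_neg hi]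
        have h1 := ratio_eq T (g := fun m => ∏ j, g j m ^ l i j) (g' := fun _ => 1) (ρ := ρ i)
          (by
            intro m hm
            obtain ⟨z, hz⟩ := hlr i hi m hm
            exact ⟨z, by rw [mul_one]; exact hz⟩)
          (W := W) (Q := ∏ j, (∏ a, aeval (x W a) (P j a)) ^ l i j) (Q' := 1)
          (Finset.prod_ne_zero_iff.mpr fun j _ => zpow_ne_zero _ (hQ W hW j)) one_ne_zero
          (by
            intro m hm
            choose z hz using fun j => hloc W hW j m hm
            refine ⟨∏ j, z j ^ l i j, ?_⟩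
            rw [Units.coe_prod, map_prod, ← Finset.prod_pow, ← Finset.prod_mul_distrib]
            refine Finset.prod_congr rfl fun j _ => ?_
            have h2 : (z j ^ l i j) ^ m = (z j ^ m) ^ l i j := by
              rw [← zpow_natCast, ← zpow_natCast, zpow_comm]
            rw [← hz j, Units.val_zpow_eq_zpow_val, map_zpow₀, h2, ← mul_zpow])
          (fun m hm => ⟨1, by simp⟩)
        rw [mul_one, ← Finset.mul_prod_erase _ _ (Finset.mem_univ i), hle i hi, zpow_natCast] at h1
        have h3 : ∏ j ∈ Finset.univ.erase i, (∏ a, aeval (x W a) (P j a)) ^ l i j ≠ 0 :=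
          Finset.prod_ne_zero_iff.mpr fun j _ => zpow_ne_zero _ (hQ W hW j)
        have h4 : ∏ j, (∏ a, aeval (x W a) (P j a)) ^ (if j ∈ J' then -l i j else 0) =
            (∏ j ∈ Finset.univ.erase i, (∏ a, aeval (x W a) (P j a)) ^ l i j)⁻¹ := by
          rw [← Finset.mul_prod_erase _ _ (Finset.mem_univ i), if_neg hi, zpow_zero, one_mul,
            ← Finset.prod_inv_distrib]
          refine Finset.prod_congr rfl fun j hj => ?_
          by_cases hj' : j ∈ J'
          · rw [if_pos hj', zpow_neg]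
          · rw [if_neg hj', hls i hi j hj' (Finset.ne_of_mem_erase hj), zpow_zero, inv_one]
        rw [h4, ← h1, mul_inv_cancel_right₀ h3]
    let K := FractionRing E[X]
    have hz : Transcendental E (algebraMap E[X] K X) := by
      rintro ⟨p, hp, hpX⟩
      rw [aeval_algebraMap_apply, aeval_X_left_apply, IsFractionRing.to_map_eq_zero_iff] at hpX
      exact hp hpX
    have hz0 : algebraMap E[X] K X ≠ 0 := by
      rw [Ne, IsFractionRing.to_map_eq_zero_iff]
      exact X_ne_zero
    refine no_curve (fun j i => P j i ^ e' j) (fun j i => ?_) (fun i j j' hjj => ?_) hcard hz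
      (fun i => (ρ' i : E)) (fun i => (ρ' i).ne_zero) (fun i => n i j₀) (fun Φ hΦ => ?_) j₀ ?_
    · rw [natDegree_pow]
      exact Nat.mul_pos (he' j) (hdeg j i)
    · exact (hcop i hjj).pow
    · refine relation_vanish J' g r ε hcompat hform T (fun W j => ∏ i, aeval (x W i) (P j i)) hQ hloc
        hInd ρ' n hn Φ (fun W hW => ?_) hz0 j₀
      have h1 : (fun i => algebraMap E (W.adicCompletion E) (ρ' i) *
          ∏ j, (∏ a, aeval (x W a) (P j a)) ^ n i j) =
          fun i => ∏ a, aeval (x W a) (P i a ^ e' i) := by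
        funext i
        rw [← hM W hW i, ← Finset.prod_pow]
        exact Finset.prod_congr rfl fun a _ => by rw [map_pow]
      rw [h1, ← aeval_nm (fun j i => P j i ^ e' j) (x W) Φ, hΦ, map_zero]
    · simp only [n]
      simp [hj₀]
  obtain ⟨l, e, ρ, he, hle, hls, hlr⟩ := hrel j (by rw [hemp]; simp)
  refine ⟨e, he, ρ, fun n hn => ?_⟩
  obtain ⟨z, hz⟩ := hlr n hn
  refine ⟨z, ?_⟩
  rw [← hz, Finset.prod_eq_single j]
  · rw [hle, zpow_natCast]
  · intro i _ hij
    rw [hls i (by rw [hemp]; simp) hij, zpow_zero]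
  · intro h; exact absurd (Finset.mem_univ _) h

end Pool.Agent.Lib.MP_2f3286_ag.Gen
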