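import Pool.Agent.Lib.MP_2f3286_ag.Gen.Fin

/-!
# If all polynomial relations between the norms hold at a point of the form `(c_j z^(n_j))`, the exponents vanish
-/

open Polynomial

namespace Pool.Agent.Lib.MP_2f3286_ag.Gen

variable {E : Type*} [Field E] {I J : Type*} [Fintype I] [Fintype J]

/-- the homomorphism `Y_j ↦ ∏ i, P j i (X_i)` -/
noncomputable def nm (P : J → I → E[X]) : MvPolynomial J E →ₐ[E] MvPolynomial I E :=
  MvPolynomial.aeval fun j => ∏ i, aeval (MvPolynomial.X i : MvPolynomial I E) (P j i)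

omit [Fintype J] in
theorem nm_X (P : J → I → E[X]) (j : J) : nm P (MvPolynomial.X j) =
    ∏ i, aeval (MvPolynomial.X i : MvPolynomial I E) (P j i) := by
  rw [nm, MvPolynomial.aeval_X]

omit [Fintype J] in
/-- evaluating `nm P Φ` -/
theorem aeval_nm {L : Type*} [CommRing L] [Algebra E L] (P : J → I → E[X]) (x : I → L)
    (Φ : MvPolynomial J E) : MvPolynomial.aeval x (nm P Φ) =
      MvPolynomial.aeval (fun j => ∏ i, aeval (x i) (P j i)) Φ := by
  have h : (MvPolynomial.aeval x).comp (nm P) =
      (MvPolynomial.aeval (fun j => ∏ i, aeval (x i) (P j i)) : MvPolynomial J E →ₐ[E] L) := by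
    apply MvPolynomial.algHom_ext
    intro j
    rw [AlgHom.comp_apply, nm_X, MvPolynomial.aeval_X, map_prod]
    refine Finset.prod_congr rfl fun i _ => ?_
    rw [← aeval_algHom_apply, MvPolynomial.aeval_X]
  exact congrArg (fun g : MvPolynomial J E →ₐ[E] L => g Φ) h

theorem nm_isIntegral_aux (K : Type*) [Field K] [Algebra (MvPolynomial I E) K]
    [IsFractionRing (MvPolynomial I E) K] [Algebra E K] [IsScalarTower E (MvPolynomial I E) K]
    (P : J → I → E[X]) (hdeg : ∀ j i, 0 < (P j i).natDegree)
    (hcop : ∀ i, Pairwise fun j j' => IsCoprime (P j i) (P j' i))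
    (hcard : Fintype.card I ≤ Fintype.card J) : (nm P : MvPolynomial J E →+* MvPolynomial I E).IsIntegral := by
  let _ : Algebra (MvPolynomial J E) (MvPolynomial I E) := (nm P : MvPolynomial J E →+* _).toAlgebra
  let _ : Algebra (MvPolynomial J E) K :=
    ((algebraMap (MvPolynomial I E) K).comp (nm P : MvPolynomial J E →+* _)).toAlgebra
  have _ : IsScalarTower (MvPolynomial J E) (MvPolynomial I E) K :=
    IsScalarTower.of_algebraMap_eq fun x => rfl
  have hinj := IsFractionRing.injective (MvPolynomial I E) K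
  have hX : ∀ i, IsIntegral (MvPolynomial J E) (MvPolynomial.X i : MvPolynomial I E) := by
    intro i
    refine (isIntegral_algebraMap_iff (R := MvPolynomial J E) hinj).mp ?_
    by_contra hi
    obtain ⟨V, hV, hiV⟩ := exists_val_not_mem (MvPolynomial J E) hi
    have hVE : ∀ c : E, algebraMap E K c ∈ V := by
      intro c
      have h1 := hV (MvPolynomial.C c)
      have h2 : algebraMap (MvPolynomial J E) K (MvPolynomial.C c) = algebraMap E K c := by
        change algebraMap (MvPolynomial I E) K (nm P (MvPolynomial.C c)) = _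
        have h3 : nm P (MvPolynomial.C c) = algebraMap E (MvPolynomial I E) c := (nm P).commutes c
        rw [h3, ← IsScalarTower.algebraMap_apply]
      rwa [h2] at h1
    refine hiV (mem_of_prod_mem V hVE P hdeg hcop hcard
      (fun i => algebraMap (MvPolynomial I E) K (MvPolynomial.X i)) (fun j => ?_) i)
    have h1 := hV (MvPolynomial.X j)
    have h2 : algebraMap (MvPolynomial J E) K (MvPolynomial.X j) =
        ∏ i, aeval (algebraMap (MvPolynomial I E) K (MvPolynomial.X i)) (P j i) := by
      change algebraMap (MvPolynomial I E) K (nm P (MvPolynomial.X j)) = _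
      rw [nm_X, map_prod]
      refine Finset.prod_congr rfl fun i _ => ?_
      rw [aeval_algebraMap_apply]
    rwa [h2] at h1
  intro b
  change IsIntegral (MvPolynomial J E) b
  induction b using MvPolynomial.induction_on with
  | C c =>
    have h3 : (MvPolynomial.C c : MvPolynomial I E) =
        algebraMap (MvPolynomial J E) (MvPolynomial I E) (MvPolynomial.C c) :=
      ((nm P).commutes c).symm
    rw [h3]
    exact isIntegral_algebraMap
  | add p q hp hq => exact hp.add hq
  | mul_X p i hp => exact hp.mul (hX i)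

/-- the coordinates are integral over the norms -/
theorem nm_isIntegral (P : J → I → E[X]) (hdeg : ∀ j i, 0 < (P j i).natDegree)
    (hcop : ∀ i, Pairwise fun j j' => IsCoprime (P j i) (P j' i))
    (hcard : Fintype.card I ≤ Fintype.card J) :
    (nm P : MvPolynomial J E →+* MvPolynomial I E).IsIntegral :=
  nm_isIntegral_aux (FractionRing (MvPolynomial I E)) P hdeg hcop hcard

/-- If every polynomial relation between the norms holds at the point `(c_j z^(n_j))`, with `z` transcendental over `E`,
and there are at least twice as many norms as coordinates, then no exponent is `1`. -/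
theorem no_curve (P : J → I → E[X]) (hdeg : ∀ j i, 0 < (P j i).natDegree)
    (hcop : ∀ i, Pairwise fun j j' => IsCoprime (P j i) (P j' i))
    (hcard : 2 * Fintype.card I ≤ Fintype.card J) {K : Type*} [Field K] [Algebra E K] {z : K}
    (hz : Transcendental E z) (c : J → E) (hc : ∀ j, c j ≠ 0) (n : J → ℤ)
    (h : ∀ Φ : MvPolynomial J E, nm P Φ = 0 →
      MvPolynomial.aeval (fun j => algebraMap E K (c j) * z ^ n j) Φ = 0) (j₀ : J) : n j₀ ≠ 1 := by
  intro hj₀
  have hz0 : z ≠ 0 := by
    rintro rfl
    exact hz isAlgebraic_zero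
  let y : J → K := fun j => algebraMap E K (c j) * z ^ n j
  let ev : MvPolynomial J E →ₐ[E] K := MvPolynomial.aeval y
  have hevX : ∀ j, ev (MvPolynomial.X j) = algebraMap E K (c j) * z ^ n j := fun j =>
    MvPolynomial.aeval_X _ _
  let _ : Algebra (MvPolynomial J E) (MvPolynomial I E) := (nm P : MvPolynomial J E →+* _).toAlgebra
  have hint : Algebra.IsIntegral (MvPolynomial J E) (MvPolynomial I E) :=
    ⟨fun b => nm_isIntegral P hdeg hcop (by omega) b⟩
  have hprime : (RingHom.ker ev).IsPrime := RingHom.ker_isPrime _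
  obtain ⟨Q, hQ, hQc⟩ := Ideal.exists_ideal_over_prime_of_isIntegral_of_isDomain
    (R := MvPolynomial J E) (S := MvPolynomial I E) (RingHom.ker ev) (fun Φ hΦ => h Φ hΦ)
  let L := FractionRing (MvPolynomial I E ⧸ Q)
  let π : MvPolynomial I E →ₐ[E] L :=
    (IsScalarTower.toAlgHom E (MvPolynomial I E ⧸ Q) L).comp (Ideal.Quotient.mkₐ E Q)
  have hπ : ∀ b, π b = 0 ↔ b ∈ Q := by
    intro b
    change algebraMap (MvPolynomial I E ⧸ Q) L (Ideal.Quotient.mk Q b) = 0 ↔ _
    rw [IsFractionRing.to_map_eq_zero_iff, Ideal.Quotient.eq_zero_iff_mem]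
  let x : I → L := fun i => π (MvPolynomial.X i)
  have hker : ∀ Φ : MvPolynomial J E, π (nm P Φ) = 0 ↔ ev Φ = 0 := by
    intro Φ
    rw [hπ]
    have h1 : nm P Φ ∈ Q ↔ Φ ∈ Q.comap (algebraMap (MvPolynomial J E) (MvPolynomial I E)) := Iff.rfl
    rw [h1, hQc]
    exact RingHom.mem_ker
  let w : J → L := fun j => π (nm P (MvPolynomial.X j))
  have hw : ∀ j, w j = ∏ i, aeval (x i) (P j i) := by
    intro j
    simp only [w]
    rw [nm_X, map_prod]
    refine Finset.prod_congr rfl fun i _ => ?_
    rw [← aeval_algHom_apply]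
  -- the parameter
  let u : L := w j₀ * (algebraMap E L (c j₀))⁻¹
  have hcL : ∀ j, algebraMap E L (c j) ≠ 0 := fun j => by rw [_root_.map_ne_zero]; exact hc j
  have hcK : ∀ j, algebraMap E K (c j) ≠ 0 := fun j => by rw [_root_.map_ne_zero]; exact hc j
  let Z : MvPolynomial J E := MvPolynomial.C (c j₀)⁻¹ * MvPolynomial.X j₀
  have hZu : π (nm P Z) = u := by
    simp only [Z, u]
    rw [map_mul, map_mul, mul_comm]
    congr 1
    have h1 : nm P (MvPolynomial.C (c j₀)⁻¹) = algebraMap E (MvPolynomial I E) (c j₀)⁻¹ :=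
      (nm P).commutes _
    rw [h1, π.commutes, map_inv₀]
  have hZz : ev Z = z := by
    simp only [Z]
    rw [map_mul, hevX, hj₀, zpow_one]
    have h1 : ev (MvPolynomial.C (c j₀)⁻¹) = algebraMap E K (c j₀)⁻¹ := ev.commutes _
    rw [h1, map_inv₀, inv_mul_cancel_left₀ (hcK j₀)]
  have hu : Transcendental E u := by
    rintro ⟨p, hp, hpu⟩
    apply hz
    refine ⟨p, hp, ?_⟩
    rw [← hZz, aeval_algHom_apply, ← hker, ← aeval_algHom_apply, ← aeval_algHom_apply, hZu]
    exact hpu
  have hu0 : u ≠ 0 := by
    intro h0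
    rw [h0] at hu
    exact hu isAlgebraic_zero
  -- the norms in terms of the parameter
  have hwz : ∀ j, w j = algebraMap E L (c j) * u ^ n j := by
    intro j
    rcases le_total 0 (n j) with hn | hn
    · obtain ⟨m, hm⟩ := Int.eq_ofNat_of_zero_le hn
      have h1 : ev (MvPolynomial.X j - MvPolynomial.C (c j) * Z ^ m) = 0 := by
        rw [map_sub, map_mul, map_pow, hZz, hevX, hm]
        have h2 : ev (MvPolynomial.C (c j)) = algebraMap E K (c j) := ev.commutes _
        rw [h2, zpow_natCast, sub_self]
      rw [← hker, map_sub, map_sub, map_mul, map_mul, map_pow, map_pow, hZu, sub_eq_zero] at h1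
      have h3 : nm P (MvPolynomial.C (c j)) = algebraMap E (MvPolynomial I E) (c j) :=
        (nm P).commutes _
      rw [h3, π.commutes] at h1
      rw [hm, zpow_natCast]
      exact h1
    · obtain ⟨m, hm⟩ := Int.eq_ofNat_of_zero_le (Int.neg_nonneg_of_nonpos hn)
      have hm' : n j = -(m : ℤ) := by omega
      have h1 : ev (MvPolynomial.X j * Z ^ m - MvPolynomial.C (c j)) = 0 := by
        rw [map_sub, map_mul, map_pow, hZz, hevX, hm']
        have h2 : ev (MvPolynomial.C (c j)) = algebraMap E K (c j) := ev.commutes _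
        rw [h2, zpow_neg, zpow_natCast, inv_mul_cancel_right₀ (pow_ne_zero _ hz0), sub_self]
      rw [← hker, map_sub, map_sub, map_mul, map_mul, map_pow, map_pow, hZu, sub_eq_zero] at h1
      have h3 : nm P (MvPolynomial.C (c j)) = algebraMap E (MvPolynomial I E) (c j) :=
        (nm P).commutes _
      rw [h3, π.commutes] at h1
      rw [hm', zpow_neg, zpow_natCast, ← h1, mul_inv_cancel_right₀ (pow_ne_zero _ hu0)]
  have h1 := no_curve_aux P hdeg hcop hcard hu c hc n x (fun j => by rw [← hw, hwz]) j₀
  omega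

end Pool.Agent.Lib.MP_2f3286_ag.Gen
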