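import Pool.Agent.Lib.MP_2f3286_ag.Gen.Stage
import Pool.Agent.Lib.MP_2f3286_ag.Full.GenFinal

/-!
# Sections of the full fundamental group of an affine curve over a number field: arbitrary closed points, bounded contact

The proofs follow those for a set of rational points of a subfield.
-/

open IsDedekindDomain NumberField Polynomial

namespace Pool.Agent.Lib.MP_2f3286_ag.Gen

open Full

universe u in
theorem norm_final {k : Type u} [Field k] [NumberField k]
    {F : Type*} [Field F] [NumberField F] [Algebra F k]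
    {K : Type*} [Field K] [Algebra k K] (htr : Algebra.trdeg k K = 1)
    (R : Subalgebra k K) (f : R) (hf : ∀ c : k, f ≠ algebraMap k R c)
    (S₀ : Finset (HeightOneSpectrum (𝓞 F))) (S : Finset (HeightOneSpectrum (𝓞 k)))
    (hS : ∀ v : HeightOneSpectrum (𝓞 k), v ∈ S ↔ ∃ w ∈ S₀, v.asIdeal.LiesOver w.asIdeal)
    {J : Type*} [Fintype J] (P : J → k[X]) (hdeg : ∀ j, 0 < (P j).natDegree)
    (hcop : Pairwise fun j j' => IsCoprime (P j) (P j'))
    (hJ : (Fintype.card (InfinitePlace F) + S₀.card ≤ 1 ∧ Module.finrank F k ≤ Fintype.card J) ∨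
      (Fintype.card (InfinitePlace F) + S₀.card ≤ 2 ∧ 2 * Module.finrank F k ≤ Fintype.card J))
    (hunit : ∀ j, IsUnit (aeval f (P j)))
    {M : Type*} [Field M] [Algebra K M] [Algebra.IsAlgebraic K M]
    [Algebra (AlgebraicClosure k) M] [Algebra k M]
    [IsScalarTower k K M] [IsScalarTower k (AlgebraicClosure k) M]
    (hroots : ∀ j, ∀ n : ℕ, 1 ≤ n → ∃ b : M, b ^ n = algebraMap R M (aeval f (P j)))
    (hRU : ∀ r : R, algebraMap R M r ∈ divUnitRing R M)
    (s : Gal(AlgebraicClosure k/k) →* Gal(M/K)) (hs : Continuous s)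
    (hsec : ∀ σ a, s σ (algebraMap (AlgebraicClosure k) M a) =
      algebraMap (AlgebraicClosure k) M (σ a))
    (ι : ∀ v : {v : HeightOneSpectrum (𝓞 k) // v ∉ S},
      AlgebraicClosure k →ₐ[k] AlgebraicClosure (v.1.adicCompletion k))
    (φ : ∀ v : {v : HeightOneSpectrum (𝓞 k) // v ∉ S},
      integralClosure R M →+* AlgebraicClosure (v.1.adicCompletion k))
    (hφ : ∀ v, Respects s (v.1.adicCompletion k)
      (ι v : _ →+* AlgebraicClosure (v.1.adicCompletion k)) (φ v))
    (T : Finset (HeightOneSpectrum (𝓞 k))) (e : ℕ) (he : 1 ≤ e)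
    (hint : ∀ v, v.1 ∉ T → ∀ j, ∀ y z : v.1.adicCompletion k,
      φ v (algebraMap R (integralClosure R M) (aeval f (P j))) = algebraMap _ _ y →
      Valued.v y = Valued.v z ^ e → Valued.v y = 1) :
    ∃ (x : R →ₐ[k] k) (ψ : divUnitRing R M →+* AlgebraicClosure k),
      (∀ r, ψ ⟨algebraMap R M r, hRU r⟩ = algebraMap k _ (x r)) ∧
      Respects s k (RingHom.id _) ψ ∧
      (∀ v, ∀ c : divUnitRing R M, ∀ b : integralClosure R M, (b : M) = c → φ v b = ι v (ψ c)) ∧
      (∀ ψ' : divUnitRing R M →+* AlgebraicClosure k, Respects s k (RingHom.id _) ψ' → ψ' = ψ) ∧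
      ((∀ y : K, IsIntegral R y → y ∈ R) → IsDivTower R K M (AlgebraicClosure k) →
        ∃ Ψ : integralClosure R M →+* AlgebraicClosure k,
          Respects s k (RingHom.id _) Ψ ∧ (∀ v b, φ v b = ι v (Ψ b)) ∧
          ∀ Ψ' : integralClosure R M →+* AlgebraicClosure k,
            Respects s k (RingHom.id _) Ψ' → Ψ' = Ψ) := by
  classical
  obtain ⟨h, hh, hφh⟩ := Gen.exists_vanishing_of_roots R f hf S₀ S hS P hdeg hcop hJ hunit hroots s hs hsec
    ι φ hφ T e he hint
  obtain ⟨⟨ψ, hψ1, hψ2, hψ3⟩, hK⟩ := core_div htr R s hs hsec S ι φ hφ h hh hφh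
  have hsK : ∀ σ, ∀ r : R, s σ (algebraMap R M r) = algebraMap R M r := by
    intro σ r
    exact AlgEquiv.commutes (s σ) (r : K)
  have htow' : IsScalarTower k R M := IsScalarTower.of_algebraMap_eq fun x => by
    rw [IsScalarTower.algebraMap_apply k K M]; rfl
  have hkM : ∀ a : k, algebraMap R M (algebraMap k R a) =
      algebraMap (AlgebraicClosure k) M (algebraMap k _ a) := by
    intro a
    rw [← IsScalarTower.algebraMap_apply, ← IsScalarTower.algebraMap_apply]
  let θ : R →+* AlgebraicClosure k :=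
    ψ.comp ((algebraMap R M).codRestrict (divUnitRing R M) hRU)
  obtain ⟨x, hx⟩ := exists_descent (F := k) θ (fun r => mem_of_fixed fun τ =>
    (hψ1.2 τ τ (fun _ => rfl) _ _ (hsK τ r).symm).symm)
  refine ⟨{ x with commutes' := fun a => ?_ }, ψ, fun r => (hx r).symm, hψ1, hψ2, hψ3,
    fun hRn hmin => ?_⟩
  · apply (algebraMap k (AlgebraicClosure k)).injective
    change algebraMap _ _ (x (algebraMap k R a)) = _
    rw [hx]
    exact hψ1.1 (algebraMap k _ a) _ (hkM a)
  · obtain ⟨Ψ, h1, -, h2, h3⟩ := hK hRn hRU hmin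
    exact ⟨Ψ, h1, h2, h3⟩

universe u in
theorem full_final {k : Type u} [Field k] [NumberField k]
    {F : Type*} [Field F] [NumberField F] [Algebra F k]
    {K : Type*} [Field K] [Algebra k K]
    (R : Subalgebra k K) (hRn : ∀ y : K, IsIntegral R y → y ∈ R)
    (f : R) (hf : Transcendental k (f : K))
    [FiniteDimensional (IntermediateField.adjoin k {(f : K)}) K]
    (S₀ : Finset (HeightOneSpectrum (𝓞 F))) (S : Finset (HeightOneSpectrum (𝓞 k)))
    (hS : ∀ v : HeightOneSpectrum (𝓞 k), v ∈ S ↔ ∃ w ∈ S₀, v.asIdeal.LiesOver w.asIdeal)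
    {J : Type*} [Fintype J] (P : J → k[X]) (hdeg : ∀ j, 0 < (P j).natDegree)
    (hcop : Pairwise fun j j' => IsCoprime (P j) (P j'))
    (hJ : (Fintype.card (InfinitePlace F) + S₀.card ≤ 1 ∧ Module.finrank F k ≤ Fintype.card J) ∨
      (Fintype.card (InfinitePlace F) + S₀.card ≤ 2 ∧ 2 * Module.finrank F k ≤ Fintype.card J))
    (hunit : ∀ j, IsUnit (aeval f (P j)))
    {M : Type*} [Field M] [Algebra K M] [IsGalois K M]
    [Algebra (AlgebraicClosure k) M] [Algebra k M]
    [IsScalarTower k K M] [IsScalarTower k (AlgebraicClosure k) M]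
    (hroots : ∀ j, ∀ n : ℕ, 1 ≤ n → ∃ b : M, b ^ n = algebraMap R M (aeval f (P j)))
    (hRU : ∀ r : R, algebraMap R M r ∈ divUnitRing R M)
    (hun : ∀ Ψ : integralClosure R M →+* AlgebraicClosure k,
      (∀ (a : AlgebraicClosure k) (b : integralClosure R M), (b : M) = algebraMap _ M a → Ψ b = a) →
      ∀ g ∈ geomGroup K M (AlgebraicClosure k),
        (∀ b b' : integralClosure R M, (b' : M) = g b → Ψ b' = Ψ b) → g = 1)
    (hfree : IsFreeProfinite (geomGroup K M (AlgebraicClosure k)) ∨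
      ∀ A ≤ geomGroup K M (AlgebraicClosure k),
      OpenIn (geomGroup K M (AlgebraicClosure k)) A → ∀ (ℓ : ℕ) [Fact ℓ.Prime],
      Finite (A →ₜ* Multiplicative (ZMod ℓ)) ∧
      ∀ f : A →ₜ* Multiplicative (ZMod ℓ), ∃ F : A →ₜ* Multiplicative ℤ_[ℓ], ∀ a,
        PadicInt.toZMod (F a).toAdd = (f a).toAdd)
    (s : Gal(AlgebraicClosure k/k) →* Gal(M/K)) (hs : Continuous s)
    (hsec : ∀ σ a, s σ (algebraMap (AlgebraicClosure k) M a) =
      algebraMap (AlgebraicClosure k) M (σ a))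
    (ι : ∀ v : {v : HeightOneSpectrum (𝓞 k) // v ∉ S},
      AlgebraicClosure k →ₐ[k] AlgebraicClosure (v.1.adicCompletion k))
    (φ : ∀ v : {v : HeightOneSpectrum (𝓞 k) // v ∉ S},
      integralClosure R M →+* AlgebraicClosure (v.1.adicCompletion k))
    (hφ : ∀ v, Respects s (v.1.adicCompletion k)
      (ι v : _ →+* AlgebraicClosure (v.1.adicCompletion k)) (φ v))
    (T : Finset (HeightOneSpectrum (𝓞 k))) (e : ℕ) (he : 1 ≤ e)
    (hint : ∀ v, v.1 ∉ T → ∀ j, ∀ y z : v.1.adicCompletion k,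
      φ v (algebraMap R (integralClosure R M) (aeval f (P j))) = algebraMap _ _ y →
      Valued.v y = Valued.v z ^ e → Valued.v y = 1) :
    ∃ (x : R →ₐ[k] k) (Ψ : integralClosure R M →+* AlgebraicClosure k),
      (∀ r, Ψ (algebraMap R _ r) = algebraMap k _ (x r)) ∧
      (∀ v r, φ v (algebraMap R _ r) = ι v (algebraMap k _ (x r))) ∧
      Respects s k (RingHom.id _) Ψ ∧
      ∀ Ψ' : integralClosure R M →+* AlgebraicClosure k,
        Respects s k (RingHom.id _) Ψ' → Ψ' = Ψ := by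
  classical
  have hN := isClosed_geomGroup K M (AlgebraicClosure k)
  have hfree := hfree.elim (free_tfab _ hN) id
  have htr := trdeg_of_finite hf
  have hf' : ∀ c : k, f ≠ algebraMap k R c := by
    rintro c rfl
    exact hf (isAlgebraic_algebraMap c)
  obtain ⟨x, ψ, hxψ, -, hψφ, hψu, -⟩ := Gen.norm_final htr R f hf' S₀ S hS P hdeg hcop hJ hunit hroots
    hRU s hs hsec ι φ hφ T e he hint
  have hφx : ∀ v r, φ v (algebraMap R _ r) = ι v (algebraMap k _ (x r)) := by
    intro v r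
    rw [hψφ v ⟨algebraMap R M r, hRU r⟩ _ rfl, hxψ]
  obtain ⟨Ψ, h1, h2, h3⟩ := full_core (f : K) hf R hRn hun hfree s hs hsec S ι φ hφ x hφx
  refine ⟨x, Ψ, h2, hφx, h1, fun Ψ' hΨ' => h3 Ψ' hΨ' ?_⟩
  have hle : ∀ c : M, c ∈ divUnitRing R M → c ∈ (integralClosure R M) := by
    intro c hc
    have h1 : divUnitRing R M ≤ (integralClosure R M).toSubring := by
      rw [divUnitRing, Subring.closure_le]
      intro b hb
      exact hb.1
    exact h1 hc
  let inc : divUnitRing R M →+* integralClosure R M :=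
    { toFun := fun c => ⟨c, hle c c.2⟩
      map_one' := rfl
      map_mul' := fun _ _ => rfl
      map_zero' := rfl
      map_add' := fun _ _ => rfl }
  have h4 : Ψ'.comp inc = ψ := by
    refine hψu _ ⟨fun a b hb => ?_, fun σ τ hστ b b' hb => ?_⟩
    · exact hΨ'.1 a (inc b) hb
    · exact hΨ'.2 σ τ hστ (inc b) (inc b') hb
  intro r
  have h5 := congrArg (fun ψ => ψ ⟨algebraMap R M r, hRU r⟩) h4
  simp only [hxψ] at h5
  exact h5

universe u in
theorem full_final2 {k : Type u} [Field k] [NumberField k]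
    {F : Type*} [Field F] [NumberField F] [Algebra F k]
    {K : Type*} [Field K] [Algebra k K]
    (R : Subalgebra k K) (hRn : ∀ y : K, IsIntegral R y → y ∈ R) (hfg : R.FG)
    (f : R) (hf : Transcendental k (f : K))
    [FiniteDimensional (IntermediateField.adjoin k {(f : K)}) K]
    (S₀ : Finset (HeightOneSpectrum (𝓞 F))) (S : Finset (HeightOneSpectrum (𝓞 k)))
    (hS : ∀ v : HeightOneSpectrum (𝓞 k), v ∈ S ↔ ∃ w ∈ S₀, v.asIdeal.LiesOver w.asIdeal)
    {J : Type*} [Fintype J] (P : J → k[X]) (hdeg : ∀ j, 0 < (P j).natDegree)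
    (hcop : Pairwise fun j j' => IsCoprime (P j) (P j'))
    (hJ : (Fintype.card (InfinitePlace F) + S₀.card ≤ 1 ∧ Module.finrank F k ≤ Fintype.card J) ∨
      (Fintype.card (InfinitePlace F) + S₀.card ≤ 2 ∧ 2 * Module.finrank F k ≤ Fintype.card J))
    (hunit : ∀ j, IsUnit (aeval f (P j)))
    {M : Type*} [Field M] [Algebra K M] [IsGalois K M]
    [Algebra (AlgebraicClosure k) M] [Algebra k M]
    [IsScalarTower k K M] [IsScalarTower k (AlgebraicClosure k) M]
    (hRU : ∀ r : R, algebraMap R M r ∈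
      Subring.closure {b : M | IsIntegral R b ∧ IsIntegral R b⁻¹})
    (hun : ∀ Ψ : integralClosure R M →+* AlgebraicClosure k,
      (∀ (a : AlgebraicClosure k) (b : integralClosure R M), (b : M) = algebraMap _ M a → Ψ b = a) →
      ∀ g ∈ geomGroup K M (AlgebraicClosure k),
        (∀ b b' : integralClosure R M, (b' : M) = g b → Ψ b' = Ψ b) → g = 1)
    (hmax : Pt.IsRadClosed R M (AlgebraicClosure k))
    (s : Gal(AlgebraicClosure k/k) →* Gal(M/K)) (hs : Continuous s)
    (hsec : ∀ σ a, s σ (algebraMap (AlgebraicClosure k) M a) =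
      algebraMap (AlgebraicClosure k) M (σ a))
    (ι : ∀ v : {v : HeightOneSpectrum (𝓞 k) // v ∉ S},
      AlgebraicClosure k →ₐ[k] AlgebraicClosure (v.1.adicCompletion k))
    (φ : ∀ v : {v : HeightOneSpectrum (𝓞 k) // v ∉ S},
      integralClosure R M →+* AlgebraicClosure (v.1.adicCompletion k))
    (hφ : ∀ v, Respects s (v.1.adicCompletion k)
      (ι v : _ →+* AlgebraicClosure (v.1.adicCompletion k)) (φ v))
    (T : Finset (HeightOneSpectrum (𝓞 k))) (e : ℕ) (he : 1 ≤ e)
    (hint : ∀ v, v.1 ∉ T → ∀ j, ∀ y z : v.1.adicCompletion k,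
      φ v (algebraMap R (integralClosure R M) (aeval f (P j))) = algebraMap _ _ y →
      Valued.v y = Valued.v z ^ e → Valued.v y = 1) :
    ∃ (x : R →ₐ[k] k) (Ψ : integralClosure R M →+* AlgebraicClosure k),
      (∀ r, Ψ (algebraMap R _ r) = algebraMap k _ (x r)) ∧
      (∀ v r, φ v (algebraMap R _ r) = ι v (algebraMap k _ (x r))) ∧
      Respects s k (RingHom.id _) Ψ ∧
      ∀ Ψ' : integralClosure R M →+* AlgebraicClosure k,
        Respects s k (RingHom.id _) Ψ' → Ψ' = Ψ := by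
  refine Gen.full_final R hRn f hf S₀ S hS P hdeg hcop hJ hunit (fun j n hn => ?_) (fun r => ?_) hun
    (Or.inr fun B hBN hBo ℓ hℓ => ?_) s hs hsec ι φ hφ T e he hint
  · obtain ⟨u, hu⟩ := hunit j
    refine root_of_unit hmax _ ?_ ?_ n hn
    · rw [← hu]; exact isIntegral_algebraMap
    · have h1 : (algebraMap R M (u : R))⁻¹ = algebraMap R M (↑u⁻¹ : R) := by
        apply inv_eq_of_mul_eq_one_right
        rw [← map_mul, Units.mul_inv, map_one]
      rw [← hu, h1]; exact isIntegral_algebraMap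
  · have h1 : {b : M | IsIntegral R b ∧ IsIntegral R b⁻¹} ⊆ {b : M | IsDivUnit R b} :=
      fun b hb => ⟨hb.1, hb.2, fun n hn => root_of_unit hmax b hb.1 hb.2 n hn⟩
    exact Subring.closure_mono h1 (hRU r)
  · obtain ⟨O, hO, hON⟩ := hBo
    exact Pt.fin_lift (k := k) (f : K) hf R f.2 hfg (fun Ψ hΨ g hg h => hun Ψ hΨ g hg h) hmax _
      (fun g => Iff.rfl) B hBN O hO hON ℓ

universe u in
theorem gen_final {k : Type u} [Field k] [NumberField k]
    {F : Type*} [Field F] [NumberField F] [Algebra F k]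
    {K : Type*} [Field K] [Algebra k K]
    (R : Subalgebra k K) (hRn : ∀ y : K, IsIntegral R y → y ∈ R) (hfg : R.FG)
    (f : R) (hf : Transcendental k (f : K))
    [FiniteDimensional (IntermediateField.adjoin k {(f : K)}) K]
    (S₀ : Finset (HeightOneSpectrum (𝓞 F))) (S : Finset (HeightOneSpectrum (𝓞 k)))
    (hS : ∀ v : HeightOneSpectrum (𝓞 k), v ∈ S ↔ ∃ w ∈ S₀, v.asIdeal.LiesOver w.asIdeal)
    {J : Type*} [Fintype J] (P : J → k[X]) (hdeg : ∀ j, 0 < (P j).natDegree)
    (hcop : Pairwise fun j j' => IsCoprime (P j) (P j'))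
    (hJ : (Fintype.card (InfinitePlace F) + S₀.card ≤ 1 ∧ Module.finrank F k ≤ Fintype.card J) ∨
      (Fintype.card (InfinitePlace F) + S₀.card ≤ 2 ∧ 2 * Module.finrank F k ≤ Fintype.card J))
    (hunit : ∀ j, IsUnit (aeval f (P j)))
    {M : Type*} [Field M] [Algebra K M] [IsGalois K M]
    [Algebra (AlgebraicClosure k) M] [Algebra k M]
    [IsScalarTower k K M] [IsScalarTower k (AlgebraicClosure k) M]
    (hun : ∀ Ψ : integralClosure R M →+* AlgebraicClosure k,
      (∀ (a : AlgebraicClosure k) (b : integralClosure R M), (b : M) = algebraMap _ M a → Ψ b = a) →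
      ∀ g ∈ geomGroup K M (AlgebraicClosure k),
        (∀ b b' : integralClosure R M, (b' : M) = g b → Ψ b' = Ψ b) → g = 1)
    (hmax : Pt.IsRadClosed R M (AlgebraicClosure k))
    (s : Gal(AlgebraicClosure k/k) →* Gal(M/K)) (hs : Continuous s)
    (hsec : ∀ σ a, s σ (algebraMap (AlgebraicClosure k) M a) =
      algebraMap (AlgebraicClosure k) M (σ a))
    (ι : ∀ v : {v : HeightOneSpectrum (𝓞 k) // v ∉ S},
      AlgebraicClosure k →ₐ[k] AlgebraicClosure (v.1.adicCompletion k))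
    (φ : ∀ v : {v : HeightOneSpectrum (𝓞 k) // v ∉ S},
      integralClosure R M →+* AlgebraicClosure (v.1.adicCompletion k))
    (hφ : ∀ v, Respects s (v.1.adicCompletion k)
      (ι v : _ →+* AlgebraicClosure (v.1.adicCompletion k)) (φ v))
    (T : Finset (HeightOneSpectrum (𝓞 k))) (e : ℕ) (he : 1 ≤ e)
    (hint : ∀ v, v.1 ∉ T → ∀ j, ∀ y z : v.1.adicCompletion k,
      φ v (algebraMap R (integralClosure R M) (aeval f (P j))) = algebraMap _ _ y →
      Valued.v y = Valued.v z ^ e → Valued.v y = 1) :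
    ∃ (c₀ : k) (Δ : Subgroup Gal(AlgebraicClosure k/k))
      (Ψ : integralClosure R M →+* AlgebraicClosure k),
      (∀ v, φ v (algebraMap R _ f) = ι v (algebraMap k _ c₀)) ∧
      IsOpen (Δ : Set Gal(AlgebraicClosure k/k)) ∧
      (∀ (a : AlgebraicClosure k) (b : integralClosure R M), (b : M) = algebraMap _ M a → Ψ b = a) ∧
      Ψ (algebraMap R _ f) = algebraMap k _ c₀ ∧
      (∀ σ ∈ Δ, ∀ b b' : integralClosure R M, (b' : M) = s σ b → Ψ b' = σ (Ψ b)) ∧
      (∀ Ψ' : integralClosure R M →+* AlgebraicClosure k,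
        (∀ (a : AlgebraicClosure k) (b : integralClosure R M), (b : M) = algebraMap _ M a →
          Ψ' b = a) → (∀ r : R, Ψ' (algebraMap R _ r) = Ψ (algebraMap R _ r)) →
        (∃ Δ' : Subgroup Gal(AlgebraicClosure k/k), IsOpen (Δ' : Set Gal(AlgebraicClosure k/k)) ∧
          ∀ σ ∈ Δ', ∀ b b' : integralClosure R M, (b' : M) = s σ b → Ψ' b' = σ (Ψ' b)) → Ψ' = Ψ) ∧
      ((∀ r : R, ∃ c : k, Ψ (algebraMap R _ r) = algebraMap k _ c) →
        Respects s k (RingHom.id _) Ψ) := by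
  classical
  set kb := AlgebraicClosure k with hkb
  have htr := trdeg_of_finite hf
  have hfree : ∀ A ≤ geomGroup K M kb, OpenIn (geomGroup K M kb) A → ∀ (ℓ : ℕ) [Fact ℓ.Prime],
      Finite (A →ₜ* Multiplicative (ZMod ℓ)) ∧
      ∀ f : A →ₜ* Multiplicative (ZMod ℓ), ∃ F : A →ₜ* Multiplicative ℤ_[ℓ], ∀ a,
        PadicInt.toZMod (F a).toAdd = (f a).toAdd := by
    intro B hBN hBo ℓ hℓ
    obtain ⟨O, hO, hON⟩ := hBo
    exact Pt.fin_lift (k := k) (f : K) hf R f.2 hfg (fun Ψ hΨ g hg h => hun Ψ hΨ g hg h) hmax _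
      (fun g => Iff.rfl) B hBN O hO hON ℓ
  have hBk : ∀ a : kb, IsIntegral R (algebraMap kb M a) := Pt.integral_const R
  -- the small ring
  let u : J → K := fun j => aeval (f : K) (P j)
  have hfK : ∀ p : k[X], ((aeval f p : R) : K) = aeval (f : K) p := fun p =>
    (aeval_algHom_apply R.val f p).symm
  let R₁ : Subalgebra k K := Algebra.adjoin k (insert (f : K) (Set.range fun j => (u j)⁻¹))
  have huR : ∀ j, u j ∈ R ∧ (u j)⁻¹ ∈ R := by
    intro j
    obtain ⟨w, hw⟩ := hunit j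
    have h2 : ((w : R) : K) = u j := by rw [hw]; exact hfK _
    refine ⟨by rw [← h2]; exact (w : R).2, ?_⟩
    have h3 : ((↑w⁻¹ : R) : K) = (u j)⁻¹ := by
      rw [← h2]
      refine eq_inv_of_mul_eq_one_left ?_
      have h4 := congrArg (Subtype.val : R → K) (w.inv_mul)
      exact h4
    rw [← h3]; exact (↑w⁻¹ : R).2
  have hle : R₁ ≤ R := by
    refine Algebra.adjoin_le ?_
    rintro x (rfl | ⟨j, rfl⟩)
    · exact f.2
    · exact (huR j).2
  have hf₁ : (f : K) ∈ R₁ := Algebra.subset_adjoin (Set.mem_insert _ _)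
  let f₁ : R₁ := ⟨f, hf₁⟩
  have hf₁K : ∀ p : k[X], ((aeval f₁ p : R₁) : K) = aeval (f : K) p := fun p =>
    (aeval_algHom_apply R₁.val f₁ p).symm
  have huR₁ : ∀ j, (u j)⁻¹ ∈ R₁ := fun j =>
    Algebra.subset_adjoin (Set.mem_insert_of_mem _ ⟨j, rfl⟩)
  have hu0 : ∀ j, u j ≠ 0 := by
    intro j h0
    have hP0 : P j ≠ 0 := by
      intro h
      have := hdeg j
      rw [h, natDegree_zero] at this
      exact absurd this (lt_irrefl 0)
    exact hf ⟨P j, hP0, h0⟩
  have hJne : Nonempty J := by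
    rw [← Fintype.card_pos_iff]
    have : 0 < Module.finrank F k := Module.finrank_pos
    rcases hJ with h | h <;> omega
  have hunit₁ : ∀ j, IsUnit (aeval f₁ (P j)) := by
    intro j
    refine IsUnit.of_mul_eq_one ⟨(u j)⁻¹, huR₁ j⟩ (Subtype.ext ?_)
    change ((aeval f₁ (P j) : R₁) : K) * (u j)⁻¹ = 1
    rw [hf₁K]
    exact mul_inv_cancel₀ (hu0 j)
  -- integral elements
  have hint₁ : ∀ b : M, IsIntegral R₁ b → IsIntegral R b := by
    intro b hb
    let _ : Algebra R₁ R := (Subalgebra.inclusion hle).toAlgebra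
    have : IsScalarTower R₁ R M := IsScalarTower.of_algebraMap_eq fun x => rfl
    exact hb.tower_top
  let inc : integralClosure R₁ M →+* integralClosure R M :=
    { toFun := fun b => ⟨b, hint₁ _ b.2⟩
      map_one' := rfl
      map_mul' := fun _ _ => rfl
      map_zero' := rfl
      map_add' := fun _ _ => rfl }
  have hunitM : ∀ j, IsIntegral R₁ (algebraMap K M (u j)) ∧
      IsIntegral R₁ (algebraMap K M (u j))⁻¹ := by
    intro j
    constructor
    · have h1 : algebraMap K M (u j) = algebraMap R₁ M (aeval f₁ (P j)) := by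
        change _ = algebraMap K M ((aeval f₁ (P j) : R₁) : K)
        rw [hf₁K]
      rw [h1]; exact isIntegral_algebraMap
    · have h1 : (algebraMap K M (u j))⁻¹ = algebraMap R₁ M ⟨(u j)⁻¹, huR₁ j⟩ := by
        rw [← map_inv₀]; rfl
      rw [h1]; exact isIntegral_algebraMap
  have hroots : ∀ j, ∀ n : ℕ, 1 ≤ n → ∃ b : M, b ^ n = algebraMap K M (u j) := by
    intro j n hn
    exact root_of_unit hmax _ (hint₁ _ (hunitM j).1) (hint₁ _ (hunitM j).2) n hn
  have hdiv : ∀ j, IsDivUnit R₁ (algebraMap K M (u j)) := fun j =>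
    ⟨(hunitM j).1, (hunitM j).2, hroots j⟩
  have hBk₁ : ∀ a : kb, IsIntegral R₁ (algebraMap kb M a) := Pt.integral_const R₁
  have hconst : ∀ a : k, algebraMap k M a ∈ divUnitRing R₁ M := by
    intro a
    refine Subring.subset_closure ?_
    rw [IsScalarTower.algebraMap_apply k kb M]
    refine ⟨hBk₁ _, by rw [← map_inv₀]; exact hBk₁ _, fun n hn => ?_⟩
    obtain ⟨c, hc⟩ := IsAlgClosed.exists_pow_nat_eq (algebraMap k kb a) hn
    exact ⟨algebraMap kb M c, by rw [← map_pow, hc]⟩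
  have hconst' : ∀ a : kb, algebraMap kb M a ∈ divUnitRing R₁ M := by
    intro a
    refine Subring.subset_closure ?_
    refine ⟨hBk₁ _, by rw [← map_inv₀]; exact hBk₁ _, fun n hn => ?_⟩
    obtain ⟨c, hc⟩ := IsAlgClosed.exists_pow_nat_eq a hn
    exact ⟨algebraMap kb M c, by rw [← map_pow, hc]⟩
  have hfdiv : algebraMap K M (f : K) ∈ divUnitRing R₁ M := by
    obtain ⟨j⟩ := hJne
    -- a root of `P j`
    obtain ⟨β, hβ⟩ : ∃ β : kb, aeval β (P j) = 0 := by
      refine IsAlgClosed.exists_aeval_eq_zero kb (P j) ?_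
      rw [degree_eq_natDegree (by
        intro h
        have := hdeg j
        rw [h, natDegree_zero] at this
        exact absurd this (lt_irrefl 0))]
      exact_mod_cast (hdeg j).ne'
    have hdvd : (X - C β) ∣ (P j).map (algebraMap k kb) := by
      rw [dvd_iff_isRoot, IsRoot.def, eval_map, ← aeval_def]
      exact hβ
    obtain ⟨q, hq⟩ := hdvd
    let w : M := algebraMap K M (f : K) - algebraMap kb M β
    have hw1 : IsIntegral R₁ w := by
      refine IsIntegral.sub ?_ (hBk₁ β)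
      have h1 : algebraMap K M (f : K) = algebraMap R₁ M f₁ := rfl
      rw [h1]; exact isIntegral_algebraMap
    let q' : M := aeval (algebraMap K M (f : K)) q
    have hq1 : IsIntegral R₁ q' := by
      simp only [q']
      rw [aeval_eq_sum_range]
      refine IsIntegral.sum _ fun i _ => ?_
      rw [Algebra.smul_def]
      refine (hBk₁ _).mul (IsIntegral.pow ?_ i)
      have h1 : algebraMap K M (f : K) = algebraMap R₁ M f₁ := rfl
      rw [h1]; exact isIntegral_algebraMap
    have hwq : w * q' = algebraMap K M (u j) := by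
      have h1 : aeval (algebraMap K M (f : K)) ((P j).map (algebraMap k kb)) =
          algebraMap K M (u j) := by
        rw [aeval_map_algebraMap]
        exact aeval_algebraMap_apply M (f : K) (P j)
      rw [← h1, hq, map_mul, map_sub, aeval_X, aeval_C]
    have huM : algebraMap K M (u j) ≠ 0 := by
      rw [_root_.map_ne_zero]; exact hu0 j
    have hw2 : IsIntegral R₁ w⁻¹ := by
      have h1 : w⁻¹ = q' * (algebraMap K M (u j))⁻¹ := by
        apply inv_eq_of_mul_eq_one_right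
        rw [← mul_assoc, hwq, mul_inv_cancel₀ huM]
      rw [h1]
      exact hq1.mul (hunitM j).2
    have hwdiv : IsDivUnit R₁ w :=
      ⟨hw1, hw2, fun n hn => root_of_unit hmax _ (hint₁ _ hw1) (hint₁ _ hw2) n hn⟩
    have h1 : algebraMap K M (f : K) = w + algebraMap kb M β := (sub_add_cancel _ _).symm
    rw [h1]
    exact add_mem (Subring.subset_closure hwdiv) (hconst' β)
  have hRU₁ : ∀ r : R₁, algebraMap R₁ M r ∈ divUnitRing R₁ M := by
    rintro ⟨r, hr⟩
    change algebraMap K M r ∈ divUnitRing R₁ M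
    induction hr using Algebra.adjoin_induction with
    | mem r hr =>
      rcases hr with rfl | ⟨j, rfl⟩
      · exact hfdiv
      · beta_reduce
        rw [map_inv₀]
        exact Subring.subset_closure (hdiv j).inv
    | algebraMap a =>
      rw [← IsScalarTower.algebraMap_apply]
      exact hconst a
    | add a b _ _ ha hb => rw [map_add]; exact add_mem ha hb
    | mul a b _ _ ha hb => rw [map_mul]; exact mul_mem ha hb
  have hres : ∀ v, Respects s (v.1.adicCompletion k)
      (ι v : _ →+* AlgebraicClosure (v.1.adicCompletion k)) ((φ v).comp inc) := fun v =>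
    ⟨fun a b hb => (hφ v).1 a (inc b) hb, fun σ τ hστ b b' hb => (hφ v).2 σ τ hστ (inc b) (inc b') hb⟩
  obtain ⟨x, ψ, hxψ, -, hψφ, -, -⟩ := Gen.norm_final htr R₁ f₁ (fun c h => hf (by
    have h1 : (f : K) = algebraMap k K c := congrArg (Subtype.val : R₁ → K) h
    rw [h1]; exact isAlgebraic_algebraMap c)) S₀ S hS P hdeg hcop hJ hunit₁
    (fun j n hn => by
      obtain ⟨b, hb⟩ := hroots j n hn
      refine ⟨b, ?_⟩
      rw [hb]
      change _ = algebraMap K M ((aeval f₁ (P j) : R₁) : K)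
      rw [hf₁K]) hRU₁ s hs hsec ι (fun v => (φ v).comp inc) hres T e he
    (fun v hv j y z hy hyz => hint v hv j y z (by
      rw [← hy]
      change φ v (algebraMap R (integralClosure R M) (aeval f (P j))) =
        φ v (inc (algebraMap R₁ (integralClosure R₁ M) (aeval f₁ (P j))))
      congr 1
      apply Subtype.ext
      change algebraMap K M ((aeval f (P j) : R) : K) = algebraMap K M ((aeval f₁ (P j) : R₁) : K)
      rw [hfK, hf₁K]) hyz)
  have hφf : ∀ v, φ v (algebraMap R _ f) = ι v (algebraMap k _ (x f₁)) := by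
    intro v
    have h1 := hψφ v ⟨algebraMap R₁ M f₁, hRU₁ f₁⟩ (algebraMap R₁ _ f₁) rfl
    rw [hxψ] at h1
    exact h1
  obtain ⟨Δ, Ψ, h1, h2, h3, h4, h5, h6⟩ := full_core_alt (f : K) hf R f.2 hRn hun hfree s hs hsec S
    ι φ hφ (x f₁) hφf
  exact ⟨x f₁, Δ, Ψ, hφf, h1, h2, h3, h4, h5, h6⟩

universe u in
theorem gen_final' {k : Type u} [Field k] [NumberField k]
    {F : Type*} [Field F] [NumberField F] [Algebra F k]
    {K : Type*} [Field K] [Algebra k K]
    (R : Subalgebra k K) (hRn : ∀ y : K, IsIntegral R y → y ∈ R) (hfg : R.FG)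
    (f : R) (hf : Transcendental k (f : K))
    [FiniteDimensional (IntermediateField.adjoin k {(f : K)}) K]
    (S₀ : Finset (HeightOneSpectrum (𝓞 F))) (S : Finset (HeightOneSpectrum (𝓞 k)))
    (hS : ∀ v : HeightOneSpectrum (𝓞 k), v ∈ S ↔ ∃ w ∈ S₀, v.asIdeal.LiesOver w.asIdeal)
    {J : Type*} [Fintype J] (P : J → k[X]) (hdeg : ∀ j, 0 < (P j).natDegree)
    (hcop : Pairwise fun j j' => IsCoprime (P j) (P j'))
    (hJ : (Fintype.card (InfinitePlace F) + S₀.card ≤ 1 ∧ Module.finrank F k ≤ Fintype.card J) ∨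
      (Fintype.card (InfinitePlace F) + S₀.card ≤ 2 ∧ 2 * Module.finrank F k ≤ Fintype.card J))
    (hunit : ∀ j, IsUnit (aeval f (P j)))
    {M : Type*} [Field M] [Algebra K M] [IsGalois K M]
    [Algebra (AlgebraicClosure k) M] [Algebra k M]
    [IsScalarTower k K M] [IsScalarTower k (AlgebraicClosure k) M]
    (hun : ∀ Ψ : integralClosure R M →+* AlgebraicClosure k,
      (∀ (a : AlgebraicClosure k) (b : integralClosure R M), (b : M) = algebraMap _ M a → Ψ b = a) →
      ∀ g ∈ geomGroup K M (AlgebraicClosure k),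
        (∀ b b' : integralClosure R M, (b' : M) = g b → Ψ b' = Ψ b) → g = 1)
    (hmax : Pt.IsRadClosed R M (AlgebraicClosure k))
    (s : Gal(AlgebraicClosure k/k) →* Gal(M/K)) (hs : Continuous s)
    (hsec : ∀ σ a, s σ (algebraMap (AlgebraicClosure k) M a) =
      algebraMap (AlgebraicClosure k) M (σ a))
    (ι : ∀ v : {v : HeightOneSpectrum (𝓞 k) // v ∉ S},
      AlgebraicClosure k →ₐ[k] AlgebraicClosure (v.1.adicCompletion k))
    (φ : ∀ v : {v : HeightOneSpectrum (𝓞 k) // v ∉ S},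
      integralClosure R M →+* AlgebraicClosure (v.1.adicCompletion k))
    (hφ : ∀ v, Respects s (v.1.adicCompletion k)
      (ι v : _ →+* AlgebraicClosure (v.1.adicCompletion k)) (φ v))
    (T : Finset (HeightOneSpectrum (𝓞 k))) (e : ℕ) (he : 1 ≤ e)
    (hint : ∀ v, v.1 ∉ T → ∀ j, ∀ y z : v.1.adicCompletion k,
      φ v (algebraMap R (integralClosure R M) (aeval f (P j))) = algebraMap _ _ y →
      Valued.v y = Valued.v z ^ e → Valued.v y = 1) :
    ∃ (c₀ : k) (Δ : Subgroup Gal(AlgebraicClosure k/k))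
      (Ψ : integralClosure R M →+* AlgebraicClosure k),
      IsOpen (Δ : Set Gal(AlgebraicClosure k/k)) ∧
      (∀ (a : AlgebraicClosure k) (b : integralClosure R M), (b : M) = algebraMap _ M a → Ψ b = a) ∧
      (∀ σ ∈ Δ, ∀ b b' : integralClosure R M, (b' : M) = s σ b → Ψ b' = σ (Ψ b)) ∧
      Ψ (algebraMap R _ f) = algebraMap k _ c₀ ∧
      (∀ v, φ v (algebraMap R _ f) = ι v (algebraMap k _ c₀)) ∧
      (∀ Ψ' : integralClosure R M →+* AlgebraicClosure k,
        (∀ (a : AlgebraicClosure k) (b : integralClosure R M), (b : M) = algebraMap _ M a →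
          Ψ' b = a) → (∀ r : R, Ψ' (algebraMap R _ r) = Ψ (algebraMap R _ r)) →
        (∃ Δ' : Subgroup Gal(AlgebraicClosure k/k), IsOpen (Δ' : Set Gal(AlgebraicClosure k/k)) ∧
          ∀ σ ∈ Δ', ∀ b b' : integralClosure R M, (b' : M) = s σ b → Ψ' b' = σ (Ψ' b)) → Ψ' = Ψ) ∧
      ((∀ r : R, ∃ c : k, Ψ (algebraMap R _ r) = algebraMap k _ c) →
        Respects s k (RingHom.id _) Ψ) ∧
      ((∀ r : R, algebraMap R M r ∈
        Subring.closure {b : M | IsIntegral R b ∧ IsIntegral R b⁻¹}) →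
        (∀ r : R, ∃ c : k, Ψ (algebraMap R _ r) = algebraMap k _ c ∧
          ∀ v, φ v (algebraMap R _ r) = ι v (algebraMap k _ c)) ∧
        ∀ Ψ' : integralClosure R M →+* AlgebraicClosure k,
          Respects s k (RingHom.id _) Ψ' → Ψ' = Ψ) := by
  by_cases hRU : ∀ r : R, algebraMap R M r ∈
      Subring.closure {b : M | IsIntegral R b ∧ IsIntegral R b⁻¹}
  · obtain ⟨x, Ψ, h1, h2, h3, h4⟩ := Gen.full_final2 R hRn hfg f hf S₀ S hS P hdeg hcop hJ hunit hRU
      hun hmax s hs hsec ι φ hφ T e he hint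
    have hΨs : ∀ σ ∈ (⊤ : Subgroup Gal(AlgebraicClosure k/k)), ∀ b b' : integralClosure R M,
        (b' : M) = s σ b → Ψ b' = σ (Ψ b) := fun σ _ b b' hb => h3.2 σ σ (fun x => rfl) b b' hb
    refine ⟨x f, ⊤, Ψ, isOpen_univ, h3.1, hΨs, h1 f, fun v => h2 v f, fun Ψ' hΨ' hr hs' => ?_,
      fun _ => h3, fun _ => ⟨fun r => ⟨x r, h1 r, fun v => h2 v r⟩, h4⟩⟩
    obtain ⟨Δ', hΔ'o, hΔ'⟩ := hs'
    refine uniq_open (f : K) hf R hRn hun (fun B hBN hBo ℓ hℓ => ?_) s hsec Ψ Ψ' h3.1 hΨ' hr ⊤ Δ'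
      isOpen_univ hΔ'o hΨs hΔ'
    obtain ⟨O, hO, hON⟩ := hBo
    exact Pt.fin_lift (k := k) (f : K) hf R f.2 hfg (fun Ψ hΨ g hg h => hun Ψ hΨ g hg h) hmax _
      (fun g => Iff.rfl) B hBN O hO hON ℓ
  · obtain ⟨c₀, Δ, Ψ, h0, h1, h2, h3, h4, h5, h6⟩ := Gen.gen_final R hRn hfg f hf S₀ S hS P hdeg hcop hJ
      hunit hun hmax s hs hsec ι φ hφ T e he hint
    exact ⟨c₀, Δ, Ψ, h1, h2, h4, h3, h0, h5, h6, fun h => absurd h hRU⟩

end Pool.Agent.Lib.MP_2f3286_ag.Gen
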