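import Pool.Agent.Lib.MP_2f3286_ag.Gen.Rat
import Pool.Agent.Lib.MP_2f3286_ag.NormPoly

/-!
# The norm trick for arbitrary closed points of the affine line

A family of local elements `t`, such that for sufficiently many pairwise coprime polynomials `P` over `k` the elements
`P(t)` come from one class at almost all places, consists of roots of one polynomial.
-/

open IsDedekindDomain NumberField Polynomial

namespace Pool.Agent.Lib.MP_2f3286_ag.Gen

theorem exists_poly_gen {F k : Type*} [Field F] [NumberField F] [Field k] [NumberField k]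
    [Algebra F k] (E : Type*) [Field E] [NumberField E] [Algebra F E] [Algebra k E]
    [IsScalarTower F k E] (hE : ∀ x : k, ((minpoly F x).map (algebraMap F E)).Splits)
    (S₀ : Finset (HeightOneSpectrum (𝓞 F))) (S : Finset (HeightOneSpectrum (𝓞 k)))
    (hS : ∀ v : HeightOneSpectrum (𝓞 k), v ∈ S ↔ ∃ w ∈ S₀, v.asIdeal.LiesOver w.asIdeal)
    (t : ∀ v : HeightOneSpectrum (𝓞 k), v.adicCompletion k)
    {J : Type*} [Fintype J] (P : J → k[X]) (hdeg : ∀ j, 0 < (P j).natDegree)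
    (hcop : Pairwise fun j j' => IsCoprime (P j) (P j'))
    (hJ : (Fintype.card (InfinitePlace F) + S₀.card ≤ 1 ∧ Module.finrank F k ≤ Fintype.card J) ∨
      (Fintype.card (InfinitePlace F) + S₀.card ≤ 2 ∧ 2 * Module.finrank F k ≤ Fintype.card J))
    (hne : ∀ j, ∀ v ∉ S, aeval (t v) (P j) ≠ 0)
    (T : Finset (HeightOneSpectrum (𝓞 k)))
    (hval : ∀ j, ∀ v ∉ T, Valued.v (aeval (t v) (P j)) = 1)
    (G : J → ℕ → kˣ)
    (hcompat : ∀ c n m, 1 ≤ n → 1 ≤ m → ∃ y : kˣ, G c (n * m) = G c n * y ^ n)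
    (hG : ∀ c, ∀ v ∉ S, ∀ n, 1 ≤ n → ∃ w : v.adicCompletion k,
      algebraMap k (v.adicCompletion k) (G c n) * w ^ n = aeval (t v) (P c)) :
    ∃ χ : k[X], χ ≠ 0 ∧ ∀ v ∉ S, χ.eval₂ (algebraMap k (v.adicCompletion k)) (t v) = 0 := by
  classical
  set d := Module.finrank F k with hd
  have hd0 : 0 < d := Module.finrank_pos
  have hemb : Fintype.card (k →ₐ[F] E) = d := AlgHom.card_of_splits F k E hE
  have hA2 : Fintype.card (InfinitePlace F) + S₀.card ≤ 2 := by
    rcases hJ with h | h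
    · omega
    · exact h.1
  obtain ⟨ε, hε1, hε⟩ := exists_gen S₀ hA2
  let N' : kˣ →* Eˣ := (Units.map (algebraMap F E : F →* E)).comp (Units.map (Algebra.norm F))
  -- the classes of the norms
  have hform : ∀ c : J, ∃ r : Fˣ, ∀ n, 1 ≤ n → ∃ ζ : Fˣ, IsOfFinOrder ζ ∧ ∃ j : ℤ,
      ∃ y : Fˣ, Units.map (Algebra.norm F) (G c n) = r * (ζ * ε ^ j * y ^ n) := by
    intro c
    obtain ⟨α, hα⟩ := exists_alpha S (G c) (hcompat c)
      (fun v => aeval (t v) (P c)) T
      (fun v hv => hne c v hv) (fun v hv => hval c v hv)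
      (fun v hv n hn => hG c v hv n hn)
    refine ⟨Units.map (Algebra.norm F) α, fun n hn => ?_⟩
    obtain ⟨e, he, β, hβ⟩ := hα n hn
    obtain ⟨ζ, hζ, j, hj⟩ := hε _ (norm_mem_Γ S S₀ (fun v hv => (hS v).mp hv) he)
    refine ⟨ζ, hζ, j, Units.map (Algebra.norm F) β, ?_⟩
    rw [hβ, map_mul, map_mul, map_pow, hj, mul_assoc]
  choose r hr using hform
  -- the places of `E`
  let TE : Finset (HeightOneSpectrum (𝓞 E)) := (finite_above (L := F) (F := E) S₀).toFinset
  have hTE : ∀ W : HeightOneSpectrum (𝓞 E), W ∈ TE ↔ ∃ w ∈ S₀, W.asIdeal.LiesOver w.asIdeal := by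
    intro W
    simp only [TE, Set.Finite.mem_toFinset, Set.mem_ofPred_eq]
  choose p₀ hp₀ hp₀' using fun (W : HeightOneSpectrum (𝓞 E)) (σ : k →ₐ[F] E) =>
    exists_place_below σ W
  have hp₀S : ∀ W ∉ TE, ∀ σ, (p₀ W σ).1 ∉ S := by
    intro W hW σ hσ
    obtain ⟨w, hw, hl⟩ := (hS _).mp hσ
    exact hW ((hTE W).mpr ⟨w, hw, hp₀' W σ w hl⟩)
  -- the conjugate polynomials
  let PE : J → (k →ₐ[F] E) → E[X] := fun j σ => (P j).map (σ : k →+* E)
  have hPdeg : ∀ j σ, 0 < (PE j σ).natDegree := by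
    intro j σ
    simp only [PE]
    rw [natDegree_map]; exact hdeg j
  have hPcop : ∀ σ, Pairwise fun j j' => IsCoprime (PE j σ) (PE j' σ) := by
    intro σ j j' hjj
    exact (hcop hjj).map (mapRingHom (σ : k →+* E))
  let g : J → ℕ → Eˣ := fun c n => N' (G c n)
  have hgcompat : ∀ c n m, 1 ≤ n → 1 ≤ m → ∃ y : Eˣ, g c (n * m) = g c n * y ^ n := by
    intro c n m hn hm
    obtain ⟨y, hy⟩ := hcompat c n m hn hm
    refine ⟨N' y, ?_⟩
    change N' (G c (n * m)) = N' (G c n) * _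
    rw [hy, map_mul, map_pow]
  have hgform : ∀ c n, 1 ≤ n → ∃ ζ : Eˣ, IsOfFinOrder ζ ∧ ∃ j : ℤ, ∃ y : Eˣ,
      g c n = Units.map (algebraMap F E : F →* E) (r c) *
        (ζ * (Units.map (algebraMap F E : F →* E) ε) ^ j * y ^ n) := by
    intro c n hn
    obtain ⟨ζ, hζ, j, y, hy⟩ := hr c n hn
    refine ⟨Units.map (algebraMap F E : F →* E) ζ, MonoidHom.isOfFinOrder _ hζ, j,
      Units.map (algebraMap F E : F →* E) y, ?_⟩
    change Units.map (algebraMap F E : F →* E) (Units.map (Algebra.norm F) (G c n)) = _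
    rw [hy, map_mul, map_mul, map_mul, map_zpow, map_pow]
  -- the local norms of an admissible family
  have hnorm : ∀ (W : HeightOneSpectrum (𝓞 E))
      (p : (k →ₐ[F] E) → Σ v : HeightOneSpectrum (𝓞 k), (v.adicCompletion k →+* W.adicCompletion E)),
      (∀ σ a, (p σ).2 (algebraMap k ((p σ).1.adicCompletion k) a) =
        algebraMap E (W.adicCompletion E) (σ a)) → ∀ j,
      ∏ σ : k →ₐ[F] E, aeval ((p σ).2 (t (p σ).1)) (PE j σ) =
        ∏ σ : k →ₐ[F] E, (p σ).2 (aeval (t (p σ).1) (P j)) := by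
    intro W p hp j
    refine Finset.prod_congr rfl fun σ _ => ?_
    simp only [PE]
    rw [aeval_def, eval₂_map, aeval_def, hom_eval₂]
    congr 1
    exact RingHom.ext fun a => (hp σ a).symm
  have hprod0 : ∀ (W : HeightOneSpectrum (𝓞 E))
      (p : (k →ₐ[F] E) → Σ v : HeightOneSpectrum (𝓞 k), (v.adicCompletion k →+* W.adicCompletion E)),
      (∀ σ, (p σ).1 ∉ S) → ∀ c : J, ∏ σ : k →ₐ[F] E, (p σ).2 (aeval (t (p σ).1) (P c)) ≠ 0 := by
    intro W p hp c
    rw [Finset.prod_ne_zero_iff]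
    intro σ _
    rw [_root_.map_ne_zero]
    exact hne c _ (hp σ)
  -- powers of the norms are rational
  have hrat : ∀ j : J, ∃ e : ℕ, 0 < e ∧ IsRat fun n => g j n ^ e := by
    rcases hJ with ⟨h1, h2⟩ | ⟨h1, h2⟩
    · -- rank zero
      intro c
      have hε' := hε1 h1
      have hfin : {ζ : Fˣ | IsOfFinOrder ζ}.Finite := by
        refine (K0_finite (k := F) S₀).subset fun ζ hζ => ?_
        exact mem_K0_of_finOrder S₀ hζ
      let m := ∏ ζ ∈ hfin.toFinset, orderOf ζ
      have hm : ∀ ζ : Fˣ, IsOfFinOrder ζ → ζ ^ m = 1 := by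
        intro ζ hζ
        apply orderOf_dvd_iff_pow_eq_one.mp
        exact Finset.dvd_prod_of_mem _ (by rw [Set.Finite.mem_toFinset]; exact hζ)
      have hm0 : 0 < m := by
        rw [Nat.pos_iff_ne_zero, Finset.prod_ne_zero_iff]
        intro ζ hζ
        apply Nat.pos_iff_ne_zero.mp
        rw [Set.Finite.mem_toFinset] at hζ
        exact IsOfFinOrder.orderOf_pos hζ
      refine ⟨m, hm0, Units.map (algebraMap F E : F →* E) (r c ^ m), fun n hn => ?_⟩
      obtain ⟨ζ, hζ, j, y, hy⟩ := hr c n hn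
      refine ⟨Units.map (algebraMap F E : F →* E) (y ^ m), ?_⟩
      change Units.map (algebraMap F E : F →* E) (Units.map (Algebra.norm F) (G c n)) ^ m = _
      rw [hy, hε', one_zpow, mul_one, ← map_pow, ← map_pow, ← map_mul]
      congr 1
      rw [mul_pow, mul_pow, hm ζ hζ, one_mul, ← pow_mul, ← pow_mul, mul_comm n m]
    · -- rank one
      exact exists_rational_pow PE hPdeg hPcop (by rw [hemb]; exact h2) g _ _ hgcompat hgform TE
        (fun W σ => (p₀ W σ).2 (t (p₀ W σ).1))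
        (fun W hW j => by
          rw [hnorm W (p₀ W) (hp₀ W)]
          exact hprod0 W (p₀ W) (hp₀S W hW) j)
        (fun W hW j n hn => by
          rw [hnorm W (p₀ W) (hp₀ W)]
          exact prod_local hE S (fun v => aeval (t v) (P j)) (G j) (fun v hv n hn => hG j v hv n hn)
            (p₀ W) (hp₀ W) (hp₀S W hW) n hn)
  choose e he ρ hρ using hrat
  obtain ⟨χ, hχ0, hχ⟩ := exists_poly_of_norms (fun j σ => PE j σ ^ e j)
    (fun j σ => by rw [natDegree_pow]; exact Nat.mul_pos (he j) (hPdeg j σ))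
    (fun σ j j' hjj => (hPcop σ hjj).pow)
    (by
      rw [hemb]
      rcases hJ with h | h
      · exact h.2
      · omega) (fun j => (ρ j : E))
  obtain ⟨P', hP'0, hP'⟩ := exists_ground_poly (k := k) hχ0
  refine ⟨P', hP'0, fun v hv => ?_⟩
  -- a place above `v`
  obtain ⟨W, j₀, hj₀, hW⟩ := exists_place_above (F := F) (E := E) v
  have hWT : W ∉ TE := by
    intro h
    obtain ⟨w, hw, hl⟩ := (hTE W).mp h
    exact hv ((hS v).mpr ⟨w, hw, hW w hl⟩)
  let σ₀ : k →ₐ[F] E := IsScalarTower.toAlgHom F k E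
  let p : (k →ₐ[F] E) → Σ v : HeightOneSpectrum (𝓞 k), (v.adicCompletion k →+* W.adicCompletion E) :=
    Function.update (p₀ W) σ₀ ⟨v, j₀⟩
  have hpσ₀ : p σ₀ = ⟨v, j₀⟩ := Function.update_self _ _ _
  have hp : ∀ σ : k →ₐ[F] E, ∀ a : k, (p σ).2 (algebraMap k ((p σ).1.adicCompletion k) a) =
      algebraMap E (W.adicCompletion E) (σ a) := by
    intro σ
    by_cases h : σ = σ₀
    · subst h
      rw [hpσ₀]
      exact hj₀
    · have h1 : p σ = p₀ W σ := Function.update_of_ne h _ _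
      rw [h1]
      exact hp₀ W σ
  have hpS : ∀ σ, (p σ).1 ∉ S := by
    intro σ
    by_cases h : σ = σ₀
    · subst h
      rw [hpσ₀]
      exact hv
    · have h1 : p σ = p₀ W σ := Function.update_of_ne h _ _
      rw [h1]
      exact hp₀S W hWT σ
  have h3 := hχ (W.adicCompletion E) (fun σ => (p σ).2 (t (p σ).1)) (fun j => by
    simp only [map_pow]
    rw [Finset.prod_pow, hnorm W p hp]
    have h2 := ratio_eq TE (g := fun n => g j n ^ e j) (g' := fun _ => 1) (ρ := ρ j) (by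
        intro n hn
        obtain ⟨z, hz⟩ := hρ j n hn
        exact ⟨z, by rw [mul_one]; exact hz⟩)
      (Q := (∏ σ : k →ₐ[F] E, (p σ).2 (aeval (t (p σ).1) (P j))) ^ e j)
      (pow_ne_zero _ (hprod0 W p hpS j))
      (one_ne_zero (α := W.adicCompletion E))
      (fun n hn => by
        obtain ⟨z, hz⟩ := prod_local hE S (fun v => aeval (t v) (P j)) (G j)
          (fun v hv n hn => hG j v hv n hn) p hp hpS n hn
        refine ⟨z ^ e j, ?_⟩
        rw [← hz, Units.val_pow_eq_pow_val, map_pow, mul_pow, ← pow_mul, ← pow_mul, mul_comm (e j) n]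
        rfl)
      (fun n hn => ⟨1, by simp⟩)
    rw [h2, mul_one]) σ₀
  have h3' : aeval ((p σ₀).2 (t (p σ₀).1)) χ = 0 := h3
  rw [hpσ₀, aeval_def] at h3'
  have h4 := hP' _ (algebraMap E (W.adicCompletion E)) _ h3'
  apply j₀.injective
  rw [map_zero, hom_eval₂]
  have h5 : j₀.comp (algebraMap k (v.adicCompletion k)) =
      (algebraMap E (W.adicCompletion E)).comp (algebraMap k E) :=
    RingHom.ext fun a => hj₀ a
  rw [h5]
  exact h4

end Pool.Agent.Lib.MP_2f3286_ag.Gen
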