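import Pool.Agent.Lib.MP_2f3286_ag.Gen.Curve
import Pool.Agent.Lib.MP_2f3286_ag.Select

/-!
# Polynomial relations between rank-one profinite classes

If `Q_j`, `j` in `J'`, are multiplicatively independent modulo rational classes and `M_i` is a constant times a monomial
in the `Q_j`, then every polynomial relation between the `M_i` is an identity.
-/

open IsDedekindDomain NumberField WithZero

namespace Pool.Agent.Lib.MP_2f3286_ag.Gen

section group

variable {E : Type*} [Field E] {J : Type*} [Fintype J]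

/-- exponent of a monomial after the substitution -/
def mexp (n : J → J → ℤ) (I : J →₀ ℕ) : J → ℤ := fun j => ∑ i, (I i : ℤ) * n i j

/-- coefficient of a monomial after the substitution -/
noncomputable def mcoef (Φ : MvPolynomial J E) (ρ : J → Eˣ) (I : J →₀ ℕ) : E :=
  Φ.coeff I * ∏ i, (ρ i : E) ^ I i

open Classical in
/-- coefficient of a group of monomials with the same exponent after the substitution -/
noncomputable def gcoef (Φ : MvPolynomial J E) (ρ : J → Eˣ) (n : J → J → ℤ) (μ : J → ℤ) : E :=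
  ∑ I ∈ Φ.support.filter (fun I => mexp n I = μ), mcoef Φ ρ I

open Classical in
theorem aeval_group (Φ : MvPolynomial J E) (ρ : J → Eˣ) (n : J → J → ℤ) {K : Type*} [Field K]
    [Algebra E K] (q : J → K) (hq : ∀ j, q j ≠ 0) :
    MvPolynomial.aeval (fun i => algebraMap E K (ρ i) * ∏ j, q j ^ n i j) Φ =
      ∑ μ ∈ Φ.support.image (mexp n), algebraMap E K (gcoef Φ ρ n μ) * ∏ j, q j ^ μ j := by
  rw [MvPolynomial.aeval_def, MvPolynomial.eval₂_eq']
  have h1 : ∀ I ∈ Φ.support, algebraMap E K (Φ.coeff I) *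
      ∏ i, (algebraMap E K (ρ i) * ∏ j, q j ^ n i j) ^ I i =
      algebraMap E K (mcoef Φ ρ I) * ∏ j, q j ^ mexp n I j := by
    intro I _
    rw [mcoef, map_mul, map_prod, mul_assoc]
    congr 1
    have h2 : ∀ i, (algebraMap E K (ρ i) * ∏ j, q j ^ n i j) ^ I i =
        algebraMap E K ((ρ i : E) ^ I i) * ∏ j, q j ^ ((I i : ℤ) * n i j) := by
      intro i
      rw [mul_pow, map_pow, ← Finset.prod_pow]
      congr 1
      refine Finset.prod_congr rfl fun j _ => ?_
      rw [mul_comm (I i : ℤ), zpow_mul, zpow_natCast]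
    rw [Finset.prod_congr rfl fun i _ => h2 i, Finset.prod_mul_distrib]
    congr 1
    rw [Finset.prod_comm]
    refine Finset.prod_congr rfl fun j _ => ?_
    rw [mexp]
    clear h2
    induction (Finset.univ : Finset J) using Finset.induction_on with
    | empty => simp
    | insert a s ha ih => rw [Finset.prod_insert ha, Finset.sum_insert ha, zpow_add₀ (hq j), ih]
  rw [Finset.sum_congr rfl h1, ← Finset.sum_fiberwise_of_maps_to (g := mexp n)
    (t := Φ.support.image (mexp n)) (fun I hI => Finset.mem_image_of_mem _ hI)]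
  refine Finset.sum_congr rfl fun μ _ => ?_
  rw [gcoef, map_sum, Finset.sum_mul]
  refine Finset.sum_congr rfl fun I hI => ?_
  rw [(Finset.mem_filter.mp hI).2]

end group

theorem zpow_prod_form {G : Type*} [CommGroup G] {J : Type*} (s : Finset J) (ζ y : J → G) (ε : G) (e μ : J → ℤ)
    (n : ℕ) : ∏ j ∈ s, (ζ j * ε ^ e j * y j ^ n) ^ μ j =
      (∏ j ∈ s, ζ j ^ μ j) * ε ^ (∑ j ∈ s, e j * μ j) * (∏ j ∈ s, y j ^ μ j) ^ n := by
  classical
  induction s using Finset.induction_on with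
  | empty => simp
  | insert a s ha ih =>
    rw [Finset.prod_insert ha, Finset.prod_insert ha, Finset.sum_insert ha, Finset.prod_insert ha, ih,
      mul_zpow, mul_zpow, zpow_add, ← zpow_mul, mul_pow]
    have h1 : (y a ^ n) ^ μ a = (y a ^ μ a) ^ n := by
      rw [← zpow_natCast, ← zpow_natCast, zpow_comm]
    rw [h1]
    simp only [mul_assoc, mul_comm, mul_left_comm]

variable {E : Type*} [Field E] [NumberField E]

theorem relation_vanish {J : Type*} [Fintype J] (J' : Finset J)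
    (g : J → ℕ → Eˣ) (r : J → Eˣ) (ε : Eˣ)
    (hcompat : ∀ i, ∀ n m, 1 ≤ n → 1 ≤ m → ∃ y : Eˣ, g i (n * m) = g i n * y ^ n)
    (hform : ∀ i, ∀ n, 1 ≤ n → ∃ ζ : Eˣ, IsOfFinOrder ζ ∧ ∃ j : ℤ, ∃ y : Eˣ,
      g i n = r i * (ζ * ε ^ j * y ^ n))
    (T : Finset (HeightOneSpectrum (𝓞 E)))
    (Q : ∀ W : HeightOneSpectrum (𝓞 E), J → W.adicCompletion E)
    (hQ : ∀ W ∉ T, ∀ i, Q W i ≠ 0)
    (hloc : ∀ W ∉ T, ∀ i, ∀ n, 1 ≤ n → ∃ z : W.adicCompletion E,
      algebraMap E (W.adicCompletion E) (g i n) * z ^ n = Q W i)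
    (hind : ∀ l : J → ℤ, (∀ j ∉ J', l j = 0) →
      (∃ ρ : Eˣ, ∀ n, 1 ≤ n → ∃ z : Eˣ, ∏ j, g j n ^ l j = ρ * z ^ n) → l = 0)
    (ρ : J → Eˣ) (n : J → J → ℤ) (hn : ∀ i, ∀ j ∉ J', n i j = 0) (Φ : MvPolynomial J E)
    (hΦ : ∀ W ∉ T, MvPolynomial.aeval (fun i => algebraMap E (W.adicCompletion E) (ρ i) *
      ∏ j, Q W j ^ n i j) Φ = 0)
    {K : Type*} [Field K] [Algebra E K] {z : K} (hz : z ≠ 0) (j₀ : J) :
    MvPolynomial.aeval (fun i => algebraMap E K (ρ i) * z ^ n i j₀) Φ = 0 := by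
  classical
  -- it is enough that all the grouped coefficients vanish
  suffices hall : ∀ μ ∈ Φ.support.image (mexp n), gcoef Φ ρ n μ = 0 by
    have h1 := aeval_group Φ ρ n (fun j => if j = j₀ then z else (1 : K)) (fun j => by
      split_ifs
      · exact hz
      · exact one_ne_zero)
    have h2 : ∀ i, ∏ j, (if j = j₀ then z else (1 : K)) ^ n i j = z ^ n i j₀ := by
      intro i
      rw [Finset.prod_eq_single j₀]
      · rw [if_pos rfl]
      · intro j _ hj
        rw [if_neg hj, one_zpow]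
      · intro h; exact absurd (Finset.mem_univ _) h
    simp only [h2] at h1
    rw [h1]
    refine Finset.sum_eq_zero fun μ hμ => ?_
    rw [hall μ hμ, map_zero, zero_mul]
  by_contra hcon
  push Not at hcon
  obtain ⟨μ₀, hμ₀, hμ₀'⟩ := hcon
  let A : Finset (J → ℤ) := (Φ.support.image (mexp n)).filter fun μ => gcoef Φ ρ n μ ≠ 0
  have hA : A.Nonempty := ⟨μ₀, Finset.mem_filter.mpr ⟨hμ₀, hμ₀'⟩⟩
  have hAJ : ∀ μ ∈ A, ∀ j ∉ J', μ j = 0 := by
    intro μ hμ j hj
    obtain ⟨I, -, rfl⟩ := Finset.mem_image.mp (Finset.mem_filter.mp hμ).1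
    rw [mexp]
    exact Finset.sum_eq_zero fun i _ => by rw [hn i j hj, mul_zero]
  let T' : Finset (HeightOneSpectrum (𝓞 E)) := T ∪ (finite_val_ne_one ε.ne_zero).toFinset
  have hT' : ∀ W ∉ T', W ∉ T ∧ W.valuation E (ε : E) = 1 := by
    intro W hW
    simp only [T', Finset.mem_union, Set.Finite.mem_toFinset, Set.mem_ofPred_eq, not_or,
      not_not] at hW
    exact hW
  let c : (J → ℤ) → Eˣ := fun μ =>
    (if h : gcoef Φ ρ n μ ≠ 0 then Units.mk0 _ h else 1) * ∏ j, r j ^ μ j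
  let G : (J → ℤ) → ℕ → Eˣ := fun μ m => ∏ j, (g j m * (r j)⁻¹) ^ μ j
  let y : ∀ W : HeightOneSpectrum (𝓞 E), (J → ℤ) → W.adicCompletion E := fun W μ =>
    ∏ j, (Q W j * algebraMap E (W.adicCompletion E) ((r j)⁻¹ : Eˣ)) ^ μ j
  have hGcompat : ∀ μ : J → ℤ, ∀ a b, 1 ≤ a → 1 ≤ b → ∃ y : Eˣ, G μ (a * b) = G μ a * y ^ a := by
    intro μ a b ha hb
    choose y hy using fun j => hcompat j a b ha hb
    refine ⟨∏ j, y j ^ μ j, ?_⟩
    simp only [G]
    rw [← Finset.prod_pow, ← Finset.prod_mul_distrib]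
    refine Finset.prod_congr rfl fun j _ => ?_
    rw [hy j, mul_right_comm, mul_zpow]
    congr 1
    rw [← zpow_natCast, ← zpow_natCast, zpow_comm]
  have hGform : ∀ μ : J → ℤ, ∀ a, 1 ≤ a → ∃ ζ : Eˣ, IsOfFinOrder ζ ∧ ∃ j : ℤ, ∃ y : Eˣ,
      G μ a = ζ * ε ^ j * y ^ a := by
    intro μ a ha
    choose ζ hζ e y hy using fun j => hform j a ha
    refine ⟨∏ j, ζ j ^ μ j, ?_, ∑ j, e j * μ j, ∏ j, y j ^ μ j, ?_⟩
    · have h1 : ∏ j, ζ j ^ μ j ∈ CommGroup.torsion Eˣ :=
        prod_mem fun j _ => zpow_mem ((CommGroup.mem_torsion _).mpr (hζ j)) _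
      exact (CommGroup.mem_torsion _).mp h1
    · rw [← zpow_prod_form]
      refine Finset.prod_congr rfl fun j _ => ?_
      rw [hy j, mul_comm (r j), mul_inv_cancel_right]
  have hGloc : ∀ W ∉ T, ∀ μ : J → ℤ, ∀ a, 1 ≤ a → ∃ z : W.adicCompletion E,
      algebraMap E (W.adicCompletion E) (G μ a) * z ^ a = y W μ := by
    intro W hW μ a ha
    choose z hz using fun j => hloc W hW j a ha
    refine ⟨∏ j, z j ^ μ j, ?_⟩
    simp only [G, y]
    rw [Units.coe_prod, map_prod, ← Finset.prod_pow, ← Finset.prod_mul_distrib]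
    refine Finset.prod_congr rfl fun j _ => ?_
    have h1 : (z j ^ μ j) ^ a = (z j ^ a) ^ μ j := by
      rw [← zpow_natCast, ← zpow_natCast, zpow_comm]
    rw [← hz j, Units.val_zpow_eq_zpow_val, map_zpow₀, Units.val_mul, map_mul, h1, ← mul_zpow,
      mul_right_comm]
  have hy1 : ∀ W ∉ T', ∀ μ : J → ℤ, Valued.v (y W μ) = 1 := by
    intro W hW μ
    obtain ⟨hWT, hWε⟩ := hT' W hW
    simp only [y]
    rw [map_prod]
    refine Finset.prod_eq_one fun j _ => ?_
    rw [map_zpow₀]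
    have hy0 : Q W j * algebraMap E (W.adicCompletion E) ((r j)⁻¹ : Eˣ) ≠ 0 := by
      refine mul_ne_zero (hQ W hWT j) ?_
      rw [_root_.map_ne_zero]; exact Units.ne_zero _
    have h1 : Valued.v (Q W j * algebraMap E (W.adicCompletion E) ((r j)⁻¹ : Eˣ)) = 1 := by
      refine eq_one_of_pow ((Valuation.ne_zero_iff _).mpr hy0) fun a ha => ?_
      obtain ⟨ζ, hζ, e, u, hu⟩ := hform j a ha
      obtain ⟨z, hz⟩ := hloc W hWT j a ha
      refine ⟨Valued.v (algebraMap E (W.adicCompletion E) u * z), ?_⟩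
      have h2 : Q W j * algebraMap E (W.adicCompletion E) ((r j)⁻¹ : Eˣ) =
          algebraMap E (W.adicCompletion E) ((ζ * ε ^ e * u ^ a : Eˣ) : E) * z ^ a := by
        rw [← hz, hu, mul_right_comm, ← map_mul, ← Units.val_mul, mul_comm (r j),
          mul_inv_cancel_right]
      rw [h2, map_mul, map_mul, map_pow, val_alg, val_alg, Units.val_mul, Units.val_mul,
        map_mul, map_mul, val_of_finOrder hζ, Units.val_zpow_eq_zpow_val, map_zpow₀, hWε, one_zpow,
        Units.val_pow_eq_pow_val, map_pow, one_mul, one_mul, mul_pow]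
    rw [h1, one_zpow]
  obtain ⟨α, hα, α', hα', hne, γ, hγ⟩ := key_lemma (k := E) A hA c ε G
    (fun μ _ => hGcompat μ) (fun μ _ => hGform μ) T' y (fun W hW μ _ => hy1 W hW μ)
    (fun W hW μ _ => hGloc W (hT' W hW).1 μ)
    (by
      intro W hW
      have hWT := (hT' W hW).1
      have h1 := aeval_group Φ ρ n (Q W) (hQ W hWT)
      rw [hΦ W hWT] at h1
      rw [h1]
      have h2 : ∑ μ ∈ Φ.support.image (mexp n), algebraMap E (W.adicCompletion E) (gcoef Φ ρ n μ) *
          ∏ j, Q W j ^ μ j = ∑ μ ∈ A, algebraMap E (W.adicCompletion E) (gcoef Φ ρ n μ) *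
          ∏ j, Q W j ^ μ j := by
        symm
        refine Finset.sum_subset (Finset.filter_subset _ _) fun μ hμ hμA => ?_
        have h3 : gcoef Φ ρ n μ = 0 := by
          by_contra h0
          exact hμA (Finset.mem_filter.mpr ⟨hμ, h0⟩)
        rw [h3, map_zero, zero_mul]
      rw [h2]
      refine Finset.sum_congr rfl fun μ hμ => ?_
      have h3 : gcoef Φ ρ n μ ≠ 0 := (Finset.mem_filter.mp hμ).2
      simp only [c, y]
      rw [dif_pos h3, Units.val_mul, Units.val_mk0, map_mul, mul_assoc, Units.coe_prod, map_prod,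
        ← Finset.prod_mul_distrib]
      congr 1
      refine Finset.prod_congr rfl fun j _ => ?_
      have h4 : algebraMap E (W.adicCompletion E) (r j) ≠ 0 := by
        rw [_root_.map_ne_zero]; exact Units.ne_zero _
      rw [Units.val_zpow_eq_zpow_val, map_zpow₀, Units.val_inv_eq_inv_val, map_inv₀, ← mul_zpow]
      congr 1
      field_simp)
  -- contradiction with independence
  have h1 := hind (fun j => α j - α' j) (fun j hj => by rw [hAJ α hα j hj, hAJ α' hα' j hj, sub_zero])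
    ⟨γ * ∏ j, r j ^ (α j - α' j), fun m hm => by
      obtain ⟨z, hz⟩ := hγ m hm
      refine ⟨z, ?_⟩
      have h2 : ∏ j, g j m ^ (α j - α' j) = G α m * (G α' m)⁻¹ * ∏ j, r j ^ (α j - α' j) := by
        simp only [G]
        rw [← Finset.prod_inv_distrib, ← Finset.prod_mul_distrib, ← Finset.prod_mul_distrib]
        refine Finset.prod_congr rfl fun j _ => ?_
        rw [← zpow_neg, ← zpow_add, ← sub_eq_add_neg, ← mul_zpow, inv_mul_cancel_right]
      rw [h2, hz]
      rw [mul_right_comm γ, mul_assoc (γ * z ^ m), mul_inv_cancel, mul_one, mul_right_comm]⟩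
  apply hne
  funext j
  have h2 := congrFun h1 j
  simp only [Pi.zero_apply] at h2
  omega

end Pool.Agent.Lib.MP_2f3286_ag.Gen
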