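import Pool.Agent.Lib.MP_2f3286_ag.Gen.Main
import Pool.Agent.Lib.MP_2f3286_ag.NormStage

/-!
# Adelic sections over arbitrary number fields: arbitrary closed points, bounded contact
-/

open IsDedekindDomain NumberField Polynomial

namespace Pool.Agent.Lib.MP_2f3286_ag.Gen

section

universe u

variable {k : Type u} [Field k] [NumberField k]
    {K : Type*} [Field K] [Algebra k K]
    (R : Subalgebra k K)
    {M : Type*} [Field M] [Algebra K M]
    [Algebra (AlgebraicClosure k) M] [Algebra k M]
    [IsScalarTower k K M] [IsScalarTower k (AlgebraicClosure k) M]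

/-- Sections with local points of bounded contact with the boundary: there is a nonzero function vanishing at all the
local points. -/
theorem exists_vanishing_of_roots {F : Type*} [Field F] [NumberField F] [Algebra F k]
    (f : R) (hf : ∀ c : k, f ≠ algebraMap k R c)
    (S₀ : Finset (HeightOneSpectrum (𝓞 F))) (S : Finset (HeightOneSpectrum (𝓞 k)))
    (hS : ∀ v : HeightOneSpectrum (𝓞 k), v ∈ S ↔ ∃ w ∈ S₀, v.asIdeal.LiesOver w.asIdeal)
    {J : Type*} [Fintype J] (P : J → k[X]) (hdeg : ∀ j, 0 < (P j).natDegree)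
    (hcop : Pairwise fun j j' => IsCoprime (P j) (P j'))
    (hJ : (Fintype.card (InfinitePlace F) + S₀.card ≤ 1 ∧ Module.finrank F k ≤ Fintype.card J) ∨
      (Fintype.card (InfinitePlace F) + S₀.card ≤ 2 ∧ 2 * Module.finrank F k ≤ Fintype.card J))
    (hunit : ∀ j, IsUnit (aeval f (P j)))
    (hroots : ∀ j, ∀ n : ℕ, 1 ≤ n → ∃ b : M, b ^ n = algebraMap R M (aeval f (P j)))
    (s : Gal(AlgebraicClosure k/k) →* Gal(M/K)) (hs : Continuous s)
    (hsec : ∀ σ a, s σ (algebraMap (AlgebraicClosure k) M a) =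
      algebraMap (AlgebraicClosure k) M (σ a))
    (ι : ∀ v : {v : HeightOneSpectrum (𝓞 k) // v ∉ S},
      AlgebraicClosure k →ₐ[k] AlgebraicClosure (v.1.adicCompletion k))
    (φ : ∀ v : {v : HeightOneSpectrum (𝓞 k) // v ∉ S},
      integralClosure R M →+* AlgebraicClosure (v.1.adicCompletion k))
    (hφ : ∀ v, Respects s (v.1.adicCompletion k) (ι v : _ →+* AlgebraicClosure (v.1.adicCompletion k)) (φ v))
    (T : Finset (HeightOneSpectrum (𝓞 k))) (N : ℕ) (hN : 1 ≤ N)
    (hint : ∀ v, v.1 ∉ T → ∀ j, ∀ y z : v.1.adicCompletion k,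
      φ v (algebraMap R (integralClosure R M) (aeval f (P j))) = algebraMap _ _ y →
      Valued.v y = Valued.v z ^ N → Valued.v y = 1) :
    ∃ h : R, h ≠ 0 ∧ ∀ v, φ v (algebraMap R (integralClosure R M) h) = 0 := by
  classical
  have hRM : ∀ r : R, algebraMap R M r = algebraMap K M (r : K) := fun r => rfl
  have hBk : ∀ a : AlgebraicClosure k, IsIntegral R (algebraMap (AlgebraicClosure k) M a) := by
    intro a
    have htow' : IsScalarTower k R M := IsScalarTower.of_algebraMap_eq fun x => by
      rw [IsScalarTower.algebraMap_apply k K M]; rfl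
    have h1 : IsIntegral k a := Algebra.IsIntegral.isIntegral a
    have h2 : IsIntegral k (algebraMap (AlgebraicClosure k) M a) := h1.algebraMap
    exact h2.tower_top
  choose x hx using fun v => exists_local_point R s v.1 (ι v) (φ v) (hφ v)
  -- the units
  choose U hU using hunit
  have hUroots : ∀ i : J, ∀ n : ℕ, 1 ≤ n → ∃ c : M, c ^ n = algebraMap R M (U i) := by
    intro i n hn
    rw [hU]
    exact hroots i n hn
  choose T' hT1 hTn hTc using fun i => exists_roots_compatible (hUroots i)
  have hTint : ∀ i n, 1 ≤ n → T' i n ∈ integralClosure R M := fun i n hn =>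
    IsIntegral.of_pow hn (by rw [hTn i n hn]; exact isIntegral_algebraMap)
  -- local values of `f`, by `0` in `S`
  let t : ∀ v : HeightOneSpectrum (𝓞 k), v.adicCompletion k := fun v =>
    if hv : v ∉ S then x ⟨v, hv⟩ f else 0
  have ht : ∀ v (hv : v ∉ S), t v = x ⟨v, hv⟩ f := fun v hv => dif_pos hv
  have htU : ∀ v (hv : v ∉ S), ∀ c : J, x ⟨v, hv⟩ (U c) = aeval (t v) (P c) := by
    intro v hv c
    rw [ht v hv, hU, ← aeval_algHom_apply]
  obtain ⟨e, he1, he2⟩ := exists_classes R U T' hTn hTc s hs hsec S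
    (fun v c => aeval (t v) (P c))
    (fun v hv => by
      refine ⟨ι ⟨v, hv⟩, fun i n => if h : T' i n ∈ integralClosure R M then
        φ ⟨v, hv⟩ ⟨T' i n, h⟩ else 0, fun i n hn => ?_, fun σ τ hστ i n hn ζ hζ => ?_⟩
      · beta_reduce
        rw [dif_pos (hTint i n hn), ← map_pow, ← htU v hv]
        refine Eq.trans ?_ (hx ⟨v, hv⟩ (U i)).symm
        congr 1
        apply Subtype.ext
        exact hTn i n hn
      · beta_reduce
        rw [dif_pos (hTint i n hn)]
        have h1 := (hφ ⟨v, hv⟩).2 σ τ hστ ⟨T' i n, hTint i n hn⟩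
          ((⟨algebraMap (AlgebraicClosure k) M ζ, hBk ζ⟩ : integralClosure R M) *
            ⟨T' i n, hTint i n hn⟩) (by
            rw [hζ]; rfl)
        rw [← h1, map_mul, (hφ ⟨v, hv⟩).1 ζ ⟨algebraMap (AlgebraicClosure k) M ζ, hBk ζ⟩ rfl]
        rfl)
  have hxU : ∀ v i, x v (U i) ≠ 0 := by
    intro v i
    exact ((U i).isUnit.map (x v)).ne_zero
  -- outside a finite set the values are units: the class modulo `N`-th powers
  let T₁ : Finset (HeightOneSpectrum (𝓞 k)) := T ∪ S ∪
    Finset.univ.biUnion fun j : J => (finite_val_ne_one (e j N).ne_zero).toFinset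
  have hT₁ : ∀ v ∉ T₁, v ∉ T ∧ v ∉ S ∧ ∀ j, v.valuation k (e j N : k) = 1 := by
    intro v hv
    simp only [T₁, Finset.mem_union, Finset.mem_biUnion, Finset.mem_univ, true_and,
      Set.Finite.mem_toFinset, Set.mem_ofPred_eq, not_or, not_exists, not_not] at hv
    exact ⟨hv.1.1, hv.1.2, hv.2⟩
  have hval : ∀ j, ∀ v ∉ T₁, Valued.v (aeval (t v) (P j)) = 1 := by
    intro j v hv
    obtain ⟨hvT, hvS, hve⟩ := hT₁ v hv
    obtain ⟨z, hz⟩ := he2 v hvS j N hN
    refine hint ⟨v, hvS⟩ hvT j _ z ?_ ?_
    · rw [← htU v hvS, hx, hU]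
    · rw [← hz, map_mul, map_pow, val_alg, hve j, one_mul]
  -- the field in which to take the norms
  let E : IntermediateField F (AlgebraicClosure k) :=
    IntermediateField.normalClosure F k (AlgebraicClosure k)
  have hEfin : FiniteDimensional F E := inferInstance
  have hEnf : NumberField E := NumberField.of_module_finite F E
  have hEn : Normal F E := inferInstance
  have hEtow : IsScalarTower F k E := inferInstance
  have hEs : ∀ x : k, ((minpoly F x).map (algebraMap F E)).Splits := by
    intro x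
    have h1 := hEn.splits (algebraMap k E x)
    rwa [minpoly.algebraMap_eq (algebraMap k E).injective] at h1
  obtain ⟨χ, hχ0, hχ⟩ := exists_poly_gen (F := F) (k := k) E hEs S₀ S hS t P hdeg hcop hJ
    (by
      intro c v hv
      rw [← htU v hv]
      exact hxU ⟨v, hv⟩ c)
    T₁ hval e he1 (fun c v hv n hn => he2 v hv c n hn)
  refine ⟨aeval f χ, ?_, fun v => ?_⟩
  · exact transcendental_of_section R f hf s hsec hχ0
  · rw [← hx, ← aeval_algHom_apply, aeval_def]
    have h1 := hχ v.1 v.2
    rw [ht v.1 v.2] at h1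
    rw [h1, map_zero]

end

end Pool.Agent.Lib.MP_2f3286_ag.Gen
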