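import Mathlib

/-!
# Products of values of coprime polynomials at several points: valuations

`x i` are points over a field `L` containing the field `E`, `P j i` are polynomials over `E`, for each `i` pairwise
coprime. In a valuation ring `V` of `L` containing `E` every integral coordinate is near a root of `P j i` for at most one
`j`.
-/

open Polynomial

namespace Pool.Agent.Lib.MP_2f3286_ag.Gen

variable {E L : Type*} [Field E] [Field L] [Algebra E L]

theorem val_const (V : ValuationSubring L) (hV : ∀ c : E, algebraMap E L c ∈ V) {c : E} (hc : c ≠ 0) :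
    V.valuation (algebraMap E L c) = 1 := by
  have h1 := (V.valuation_le_one_iff _).mpr (hV c)
  have h2 := (V.valuation_le_one_iff _).mpr (hV c⁻¹)
  have h3 : V.valuation (algebraMap E L c) * V.valuation (algebraMap E L c⁻¹) = 1 := by
    rw [← map_mul, ← map_mul, mul_inv_cancel₀ hc, map_one, map_one]
  refine le_antisymm h1 ?_
  calc (1 : V.ValueGroup) = V.valuation (algebraMap E L c) * V.valuation (algebraMap E L c⁻¹) := h3.symm
    _ ≤ V.valuation (algebraMap E L c) * 1 := mul_le_mul_right h2 _
    _ = _ := mul_one _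

theorem aeval_mem (V : ValuationSubring L) (hV : ∀ c : E, algebraMap E L c ∈ V) (p : E[X]) {x : L}
    (hx : x ∈ V) : aeval x p ∈ V := by
  rw [aeval_eq_sum_range]
  refine sum_mem fun k _ => ?_
  rw [Algebra.smul_def]
  exact mul_mem (hV _) (pow_mem hx _)

/-- a nonconstant polynomial has a pole where the variable has one -/
theorem val_aeval_gt (V : ValuationSubring L) (hV : ∀ c : E, algebraMap E L c ∈ V) {p : E[X]}
    (hp : 0 < p.natDegree) {x : L} (hx : x ∉ V) : 1 < V.valuation (aeval x p) := by
  have hx1 : 1 < V.valuation x := by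
    rw [← not_le, V.valuation_le_one_iff]; exact hx
  have hp0 : p ≠ 0 := by rintro rfl; simp at hp
  have hlead : V.valuation (p.coeff p.natDegree • x ^ p.natDegree) = V.valuation x ^ p.natDegree := by
    rw [Algebra.smul_def, map_mul, map_pow, val_const V hV, one_mul]
    rw [coeff_natDegree]
    exact leadingCoeff_ne_zero.mpr hp0
  have hlow : V.valuation (∑ k ∈ Finset.range p.natDegree, p.coeff k • x ^ k) <
      V.valuation (p.coeff p.natDegree • x ^ p.natDegree) := by
    rw [hlead]
    refine Valuation.map_sum_lt _ ?_ fun k hk => ?_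
    · exact (pow_ne_zero _ (zero_lt_one.trans hx1).ne')
    · rw [Algebra.smul_def, map_mul, map_pow]
      have h1 := (V.valuation_le_one_iff _).mpr (hV (p.coeff k))
      calc V.valuation (algebraMap E L (p.coeff k)) * V.valuation x ^ k ≤ 1 * V.valuation x ^ k :=
            mul_le_mul_left h1 _
        _ = V.valuation x ^ k := one_mul _
        _ < V.valuation x ^ p.natDegree := pow_lt_pow_right₀ hx1 (Finset.mem_range.mp hk)
  rw [aeval_eq_sum_range, Finset.sum_range_succ, Valuation.map_add_eq_of_lt_right _ hlow, hlead]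
  exact one_lt_pow₀ hx1 hp.ne'

variable {I J : Type*} [Fintype I] [Fintype J]

open Classical in
/-- each integral coordinate is near a root of `P j i` for at most one `j` -/
theorem card_used_le (V : ValuationSubring L) (hV : ∀ c : E, algebraMap E L c ∈ V) (P : J → I → E[X])
    (hcop : ∀ i, Pairwise fun j j' => IsCoprime (P j i) (P j' i)) (x : I → L) :
    (Finset.univ.filter fun j => ∃ i, x i ∈ V ∧ V.valuation (aeval (x i) (P j i)) < 1).card ≤
      (Finset.univ.filter fun i => x i ∈ V).card := by
  rcases isEmpty_or_nonempty I with hI | hI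
  · refine (Finset.card_eq_zero.mpr ?_).trans_le (Nat.zero_le _)
    rw [Finset.filter_eq_empty_iff]
    rintro j _ ⟨i, -⟩
    exact isEmptyElim i
  have h : ∀ j ∈ (Finset.univ.filter fun j => ∃ i, x i ∈ V ∧
      V.valuation (aeval (x i) (P j i)) < 1), ∃ i, x i ∈ V ∧
      V.valuation (aeval (x i) (P j i)) < 1 := fun j hj => (Finset.mem_filter.mp hj).2
  choose! f hf using h
  refine Finset.card_le_card_of_injOn f (fun j hj => ?_) (fun j hj j' hj' hjj => ?_)
  · rw [Finset.coe_filter]
    exact ⟨Finset.mem_univ _, (hf j hj).1⟩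
  · by_contra hne
    obtain ⟨a, b, hab⟩ := hcop (f j) hne
    have h1 := (hf j hj).2
    have h2 := (hf j' hj').2
    rw [← hjj] at h2
    have hx := (hf j hj).1
    have h3 : aeval (x (f j)) a * aeval (x (f j)) (P j (f j)) +
        aeval (x (f j)) b * aeval (x (f j)) (P j' (f j)) = 1 := by
      rw [← map_mul, ← map_mul, ← map_add, hab, map_one]
    have h4 : V.valuation (aeval (x (f j)) a * aeval (x (f j)) (P j (f j)) +
        aeval (x (f j)) b * aeval (x (f j)) (P j' (f j))) < 1 := by
      refine Valuation.map_add_lt _ ?_ ?_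
      · rw [map_mul]
        have h5 := (V.valuation_le_one_iff _).mpr (aeval_mem V hV a hx)
        exact lt_of_le_of_lt (mul_le_mul_left h5 _) (by rwa [one_mul])
      · rw [map_mul]
        have h5 := (V.valuation_le_one_iff _).mpr (aeval_mem V hV b hx)
        exact lt_of_le_of_lt (mul_le_mul_left h5 _) (by rwa [one_mul])
    rw [h3, map_one] at h4
    exact lt_irrefl _ h4

/-- away from the roots the product is at least `1`, and it is bigger if there is a pole -/
theorem one_le_prod (V : ValuationSubring L) (hV : ∀ c : E, algebraMap E L c ∈ V) (p : I → E[X])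
    (hdeg : ∀ i, 0 < (p i).natDegree) (x : I → L)
    (h : ∀ i, x i ∈ V → 1 ≤ V.valuation (aeval (x i) (p i))) :
    1 ≤ V.valuation (∏ i, aeval (x i) (p i)) ∧
      ((∃ i, x i ∉ V) → 1 < V.valuation (∏ i, aeval (x i) (p i))) := by
  classical
  have h1 : ∀ i, 1 ≤ V.valuation (aeval (x i) (p i)) := by
    intro i
    by_cases hi : x i ∈ V
    · exact h i hi
    · exact (val_aeval_gt V hV (hdeg i) hi).le
  rw [map_prod]
  refine ⟨Finset.one_le_prod' fun i _ => h1 i, ?_⟩
  rintro ⟨i, hi⟩
  rw [← Finset.mul_prod_erase _ _ (Finset.mem_univ i)]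
  exact lt_of_lt_of_le (val_aeval_gt V hV (hdeg i) hi)
    (le_mul_of_one_le_right' (Finset.one_le_prod' fun i _ => h1 i))

/-- an element which is not integral is not in some valuation ring -/
theorem exists_val_not_mem (A : Type*) [CommRing A] [Algebra A L] {x : L} (hx : ¬ IsIntegral A x) :
    ∃ V : ValuationSubring L, (∀ a : A, algebraMap A L a ∈ V) ∧ x ∉ V := by
  by_contra hcon
  push Not at hcon
  apply hx
  let S : Subring L := (algebraMap A L).range
  have h1 : x ∈ (⨅ V : {V : ValuationSubring L // (S : Set L) ⊆ V.toSubring}, V.1.toSubring) := by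
    rw [Subring.mem_iInf]
    intro V
    exact hcon V.1 fun a => V.2 ⟨a, rfl⟩
  rw [iInf_valuationSubring_superset, Subring.closure_eq] at h1
  have h2 : IsIntegral S x := h1
  obtain ⟨p, hp, hpx⟩ := h2
  have h3 : p ∈ Polynomial.lifts (algebraMap A L).rangeRestrict := by
    rw [Polynomial.lifts_iff_coeff_lifts]
    intro n
    exact (algebraMap A L).rangeRestrict_surjective _
  obtain ⟨q, hq1, -, hq2⟩ := Polynomial.lifts_and_degree_eq_and_monic h3 hp
  refine ⟨q, hq2, ?_⟩
  rw [← hq1, eval₂_map] at hpx
  exact hpx

end Pool.Agent.Lib.MP_2f3286_ag.Gen
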